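import Pool.Agent.Helper4_Nets.M4.Split

/-! Module M4 of the blueprint: conclusion, statement `P7`. -/

set_option autoImplicit false

open Set Filter Topology Metric
open scoped ContDiff

namespace Pool.Agent.Helper4Nets

/-- If `df = a dr` then `da ∧ dr = 0`. -/
lemma wedge_zero {f r a : E2 → ℝ} {m : E2} (hf : ContDiffAt ℝ 2 f m) (hr : ContDiffAt ℝ 2 r m)
    (hfr : ∀ᶠ y in 𝓝 m, ∀ w, fderiv ℝ f y w = a y * fderiv ℝ r y w)
    (ha : DifferentiableAt ℝ a m) (v w : E2) :
    fderiv ℝ a m v * fderiv ℝ r m w = fderiv ℝ a m w * fderiv ℝ r m v := by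
  have h1 : fderiv ℝ f =ᶠ[𝓝 m] fun y => a y • fderiv ℝ r y := by
    filter_upwards [hfr] with y hy
    refine ContinuousLinearMap.ext fun w => ?_
    exact hy w
  have h2 : DifferentiableAt ℝ (fderiv ℝ r) m :=
    (contDiffAt_fderiv_of (m := 1) (n := 2) le_rfl hr).differentiableAt (by simp)
  have h3 := (ha.hasFDerivAt.smul h2.hasFDerivAt)
  have h4 : ∀ v w, D2 f m v w = a m * D2 r m v w + fderiv ℝ a m v * fderiv ℝ r m w := by
    intro v w
    unfold D2
    have h5 : fderiv ℝ (fun y => a y • fderiv ℝ r y) m = _ := h3.fderiv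
    rw [h1.fderiv_eq, h5]
    simp
  have h5 := h4 v w
  rw [D2_symm hf, h4 w v, D2_symm hr w v] at h5
  linarith

namespace NiceLocal

variable {ρ : E2 → E2 → ℝ} {z : E2} {s : ℝ} {B : Set E2} (h : NiceLocal ρ z s B)

/-- the first variation of `ρ` along the field, as a function of the second variable -/
noncomputable def Uf (ρ : E2 → E2 → ℝ) (ξ : E2 → E2) (p y : E2) : ℝ :=
  fderiv ℝ (unc ρ) (p, y) (ξ p, ξ y)

include h

lemma r_cd {p m : E2} (hp : p ∈ B) (hm : m ∈ B) (hne : p ≠ m) :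
    ContDiffAt ℝ 2 (fun y => ρ p y) m :=
  ContDiffAt.comp m (g := unc ρ) (f := fun y => (p, y)) (h.unc_cd2 hp hm hne)
    (contDiffAt_const.prodMk contDiffAt_id)

lemma r_fd {p m : E2} (hp : p ∈ B) (hm : m ∈ B) (hne : p ≠ m) :
    HasFDerivAt (fun y => ρ p y) (lam ρ p m) m := by
  have h1 : HasFDerivAt (fun v : E2 => (p, v)) (ContinuousLinearMap.inr ℝ E2 E2) m :=
    (hasFDerivAt_const p m).prodMk (hasFDerivAt_id m)
  exact HasFDerivAt.comp m (g := unc ρ) (f := fun v : E2 => (p, v))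
    (h.unc_diff hp hm hne).hasFDerivAt h1

lemma Uf_cd {ξ : E2 → E2} {p m : E2} (hp : p ∈ B) (hm : m ∈ B) (hne : p ≠ m)
    (hξ : ContDiffAt ℝ 2 ξ m) : ContDiffAt ℝ 2 (Uf ρ ξ p) m := by
  have h1 : ContDiffAt ℝ 2 (fderiv ℝ (unc ρ)) (p, m) :=
    (h.unc_cd hp hm hne).fderiv_right (by norm_num)
  have h2 : ContDiffAt ℝ 2 (fun y => fderiv ℝ (unc ρ) (p, y)) m :=
    ContDiffAt.comp m (g := fderiv ℝ (unc ρ)) (f := fun y => (p, y)) h1
      (contDiffAt_const.prodMk contDiffAt_id)
  exact h2.clm_apply (contDiffAt_const.prodMk hξ)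

lemma Uf_fd {ξ : E2 → E2} {p m : E2} (hp : p ∈ B) (hm : m ∈ B) (hne : p ≠ m)
    (hξ : DifferentiableAt ℝ ξ m) (w : E2) :
    fderiv ℝ (Uf ρ ξ p) m w = Dd ρ ξ p m w + lam ρ p m (fderiv ℝ ξ m w) := by
  have h1 : DifferentiableAt ℝ (fderiv ℝ (unc ρ)) (p, m) :=
    (contDiffAt_fderiv_of (m := 1) (n := 2) le_rfl (h.unc_cd2 hp hm hne)).differentiableAt
      (by simp)
  have h0 : HasFDerivAt (fun v : E2 => (p, v)) (ContinuousLinearMap.inr ℝ E2 E2) m :=
    (hasFDerivAt_const p m).prodMk (hasFDerivAt_id m)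
  have h2 := HasFDerivAt.comp m (g := fderiv ℝ (unc ρ)) (f := fun v : E2 => (p, v))
    h1.hasFDerivAt h0
  have h3 : HasFDerivAt (fun y => (ξ p, ξ y)) ((0 : E2 →L[ℝ] E2).prod (fderiv ℝ ξ m)) m :=
    (hasFDerivAt_const (ξ p) m).prodMk hξ.hasFDerivAt
  have h4 := h2.clm_apply h3
  have h5 : fderiv ℝ (Uf ρ ξ p) m = _ := h4.fderiv
  rw [h5, Dd_apply, ← h.D2_unc_symm hp hm hne (0, w)]
  change fderiv ℝ (unc ρ) (p, m) (0, fderiv ℝ ξ m w) + D2 (unc ρ) (p, m) (0, w) (ξ p, ξ m) = _
  rw [lam_apply]; ring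

end NiceLocal

theorem p7 : P7 := by
  intro ρ z s B h ξ η hF s₂ hs₂ hsB hyp
  have hyp' : ∀ m : E2, ∃ a : ℝ, m ∈ ball z s₂ → ∀ p ∈ ball z s₂, p ≠ m → ∀ w,
      Dd ρ ξ p m w + lam ρ p m (fderiv ℝ ξ m w) = a * lam ρ p m w := by
    intro m
    by_cases hm : m ∈ ball z s₂
    · obtain ⟨-, a, ha⟩ := hyp m hm
      exact ⟨a, fun _ => ha⟩
    · exact ⟨0, fun h => absurd h hm⟩
  choose a ha using hyp'
  have hfd : ∀ m ∈ ball z s₂, ∀ p ∈ ball z s₂, p ≠ m → ∀ w,
      fderiv ℝ (NiceLocal.Uf ρ ξ p) m w = a m * lam ρ p m w := by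
    intro m hm p hp hne w
    rw [h.Uf_fd (hsB hp) (hsB hm) hne ((hyp m hm).1.differentiableAt (by simp)), ha m hm p hp hne]
  -- the function `a` is locally constant
  have key : ∀ m ∈ ball z s₂, DifferentiableAt ℝ a m ∧ fderiv ℝ a m = 0 := by
    intro m hm
    have hmB := hsB hm
    have hnh : ball z s₂ ∈ 𝓝 m := isOpen_ball.mem_nhds hm
    obtain ⟨e₁, h11⟩ := h.exists_unit hmB
    obtain ⟨e₂, h22, h12, hsp⟩ := h.exists_onb hmB h11
    have main : ∀ e, gm ρ m e e = 1 → ∃ p ∈ ball z s₂, p ≠ m ∧ (∀ w, lam ρ p m w = gm ρ m e w) ∧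
        DifferentiableAt ℝ a m ∧ ∀ v w, fderiv ℝ a m v * gm ρ m e w = fderiv ℝ a m w * gm ρ m e v := by
      intro e he
      obtain ⟨t, ht0, -, p, hpW, hpB, hpm, -, hpl, -⟩ := h.exists_ray hmB he hnh one_pos
      have hU := h.Uf_cd hpB hmB hpm (hyp m hm).1
      have hr := h.r_cd hpB hmB hpm
      have hev : ∀ᶠ y in 𝓝 m, y ∈ ball z s₂ ∧ p ≠ y := by
        have : ∀ᶠ y in 𝓝 m, y ≠ p := (isOpen_ne).mem_nhds hpm.symm
        filter_upwards [hnh, this] with y hy hy2 using ⟨hy, hy2.symm⟩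
      have hev2 : ∀ᶠ y in 𝓝 m, ∀ w, fderiv ℝ (NiceLocal.Uf ρ ξ p) y w =
          a y * fderiv ℝ (fun y => ρ p y) y w := by
        filter_upwards [hev] with y hy w
        rw [(h.r_fd hpB (hsB hy.1) hy.2).fderiv]
        exact hfd y hy.1 p hpW hy.2 w
      have hfdr : fderiv ℝ (fun y => ρ p y) m = lam ρ p m := (h.r_fd hpB hmB hpm).fderiv
      have hne0 : fderiv ℝ (fun y => ρ p y) m e ≠ 0 := by
        rw [hfdr, hpl, he]; exact one_ne_zero
      have c1 : DifferentiableAt ℝ (fun y => fderiv ℝ (NiceLocal.Uf ρ ξ p) y e) m :=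
        ((contDiffAt_fderiv_of (m := 1) (n := 2) le_rfl hU).differentiableAt (by simp)).clm_apply
          (differentiableAt_const e)
      have c2 : DifferentiableAt ℝ (fun y => fderiv ℝ (fun y => ρ p y) y e) m :=
        ((contDiffAt_fderiv_of (m := 1) (n := 2) le_rfl hr).differentiableAt (by simp)).clm_apply
          (differentiableAt_const e)
      have c3 : ∀ᶠ y in 𝓝 m, fderiv ℝ (fun y => ρ p y) y e ≠ 0 :=
        c2.continuousAt.eventually_ne hne0
      have c4 : DifferentiableAt ℝ a m := by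
        refine (c1.mul (DifferentiableAt.inv (z := m) c2 hne0)).congr_of_eventuallyEq ?_
        filter_upwards [c3, hev2] with y hy hy2
        change a y = fderiv ℝ (NiceLocal.Uf ρ ξ p) y e * (fderiv ℝ (fun y => ρ p y) y e)⁻¹
        rw [hy2 e]
        field_simp
      refine ⟨p, hpW, hpm, hpl, c4, fun v w => ?_⟩
      have := wedge_zero hU hr hev2 c4 v w
      rwa [hfdr, hpl, hpl] at this
    obtain ⟨-, -, -, -, d1, w1⟩ := main e₁ h11
    obtain ⟨-, -, -, -, -, w2⟩ := main e₂ h22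
    refine ⟨d1, ContinuousLinearMap.ext fun v => ?_⟩
    have x1 := w1 e₁ e₂
    have x2 := w2 e₁ e₂
    have h21 : gm ρ m e₂ e₁ = 0 := by rw [h.gm_symm hmB, h12]
    rw [h11, h12, mul_zero, mul_one] at x1
    rw [h22, h21, mul_one, mul_zero] at x2
    rw [hsp v, map_add, map_smul, map_smul, ← x1, x2]
    simp
  have hconst : ∀ m ∈ ball z s₂, a m = a z := by
    intro m hm
    exact isOpen_ball.is_const_of_fderiv_eq_zero (𝕜 := ℝ)
      (convex_ball z s₂).isPreconnected
      (fun y hy => (key y hy).1.differentiableWithinAt) (fun y hy => (key y hy).2) hm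
      (mem_ball_self hs₂)
  refine ⟨s₂, hs₂, a z, fun x hx y hy hne => ?_⟩
  -- the difference `u - a ρ` is constant along the segment
  let G : E2 → ℝ := fun y' => NiceLocal.Uf ρ ξ x y' - a z * ρ x y'
  have hG : ∀ y' ∈ ball z s₂, x ≠ y' → HasFDerivAt G (0 : E2 →L[ℝ] ℝ) y' := by
    intro y' hy' hne'
    have c1 : DifferentiableAt ℝ (NiceLocal.Uf ρ ξ x) y' :=
      (h.Uf_cd (hsB hx) (hsB hy') hne' (hyp y' hy').1).differentiableAt (by simp)
    have c2 := h.r_fd (hsB hx) (hsB hy') hne'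
    have c3 := c1.hasFDerivAt.sub (c2.const_mul (a z))
    refine c3.congr_fderiv (ContinuousLinearMap.ext fun w => ?_)
    change fderiv ℝ (NiceLocal.Uf ρ ξ x) y' w - a z * lam ρ x y' w = 0
    rw [hfd y' hy' x hx hne' w, hconst y' hy', sub_self]
  have hlim : Tendsto G (𝓝[≠] x) (𝓝 0) := by
    have hxB := hsB hx
    have l1 : Tendsto (fun y' => a z * ρ x y') (𝓝[≠] x) (𝓝 0) := by
      have e1 : ContinuousAt (fun y' => sg ρ (x, y')) x :=
        ContinuousAt.comp (g := sg ρ) (f := fun y' => (x, y')) (h.sg_cd hxB hxB).continuousAt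
          (by fun_prop)
      have e2 : ContinuousAt (fun y' => ρ x y') x := by
        have e3 : (fun y' => ρ x y') = fun y' => √(2 * sg ρ (x, y')) :=
          funext fun y' => h.unc_eq (x, y')
        rw [e3]
        exact (continuousAt_const.mul e1).sqrt
      have e4 : Tendsto (fun y' => ρ x y') (𝓝 x) (𝓝 0) := by
        have := e2.tendsto
        rwa [h.self] at this
      have := e4.const_mul (a z)
      rw [mul_zero] at this
      exact this.mono_left nhdsWithin_le_nhds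
    have l2 : Tendsto (fun y' => NiceLocal.Uf ρ ξ x y') (𝓝[≠] x) (𝓝 0) := by
      rw [Metric.tendsto_nhdsWithin_nhds]
      intro ε hε
      obtain ⟨K, hK, r₁, hr₁, hr₁B, hlam⟩ := h.lam_bound hxB
      obtain ⟨r₂, hr₂, hr₂B, hadd⟩ := h.lam_add_small hxB (δ := ε / (2 * (‖ξ x‖ + 1)))
        (by positivity)
      have hξ := h.xi_cont hF hxB
      obtain ⟨r₃, hr₃, hr₃c⟩ := Metric.continuousAt_iff.1 hξ (ε / (2 * (K + 1))) (by positivity)
      refine ⟨min r₁ (min r₂ r₃), by positivity, fun {y'} hy' hd => ?_⟩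
      have hne' : x ≠ y' := Ne.symm hy'
      have hy1 : y' ∈ ball x r₁ := lt_of_lt_of_le hd (min_le_left _ _)
      have hy2 : y' ∈ ball x r₂ := lt_of_lt_of_le hd ((min_le_right _ _).trans (min_le_left _ _))
      have hd3 : dist y' x < r₃ := lt_of_lt_of_le hd ((min_le_right _ _).trans (min_le_right _ _))
      have b1 := hadd x (mem_ball_self hr₂) y' hy2 hne' (ξ x)
      have b2 := hlam x hxB y' hy1 hne' (ξ y' - ξ x)
      have b3 := hr₃c hd3
      rw [dist_eq_norm] at b3
      have e1 : NiceLocal.Uf ρ ξ x y' = (lam ρ y' x (ξ x) + lam ρ x y' (ξ x)) +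
          lam ρ x y' (ξ y' - ξ x) := by
        unfold NiceLocal.Uf
        rw [h.fd_unc hxB (hr₁B hy1) hne', map_sub]; ring
      rw [dist_zero_right, e1, Real.norm_eq_abs]
      have b4 : ε / (2 * (‖ξ x‖ + 1)) * ‖ξ x‖ ≤ ε / 2 := by
        rw [div_mul_eq_mul_div, div_le_div_iff₀ (by positivity) (by positivity)]
        nlinarith [norm_nonneg (ξ x)]
      have b5 : K * ‖ξ y' - ξ x‖ < ε / 2 := by
        have : K * ‖ξ y' - ξ x‖ ≤ K * (ε / (2 * (K + 1))) := by gcongr
        refine this.trans_lt ?_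
        rw [mul_div_assoc', div_lt_div_iff₀ (by positivity) (by positivity)]
        nlinarith
      calc |lam ρ y' x (ξ x) + lam ρ x y' (ξ x) + lam ρ x y' (ξ y' - ξ x)|
          ≤ |lam ρ y' x (ξ x) + lam ρ x y' (ξ x)| + |lam ρ x y' (ξ y' - ξ x)| := abs_add_le _ _
        _ < ε := by linarith
    have := l2.sub l1
    rw [sub_zero] at this
    exact this
  have hG0 : G y = 0 := by
    have hsmall : ∀ ε > 0, |G y| < ε := by
      intro ε hε
      rw [Metric.tendsto_nhdsWithin_nhds] at hlim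
      obtain ⟨δ, hδ, hδ2⟩ := hlim ε hε
      set τ := min 1 (δ / (2 * (‖y - x‖ + 1))) with hτ
      have hτ0 : 0 < τ := by positivity
      have hτ1 : τ ≤ 1 := min_le_left _ _
      set y' := x + τ • (y - x) with hy'
      have hyx : y - x ≠ 0 := sub_ne_zero.2 hne.symm
      have hne' : y' ≠ x := by
        rw [hy']
        intro hcon
        have : τ • (y - x) = 0 := by
          have h5 : x + τ • (y - x) = x + 0 := by rw [hcon, add_zero]
          exact add_left_cancel h5
        rcases smul_eq_zero.1 this with h0 | h0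
        · exact hτ0.ne' h0
        · exact hyx h0
      have hd : dist y' x < δ := by
        rw [hy', dist_eq_norm, add_sub_cancel_left, norm_smul, Real.norm_eq_abs, abs_of_pos hτ0]
        have c1 : τ ≤ δ / (2 * (‖y - x‖ + 1)) := min_le_right _ _
        calc τ * ‖y - x‖ ≤ δ / (2 * (‖y - x‖ + 1)) * ‖y - x‖ := by gcongr
          _ < δ := by
            rw [div_mul_eq_mul_div, div_lt_iff₀ (by positivity)]
            nlinarith [norm_nonneg (y - x)]
      have h1 := hδ2 hne' hd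
      rw [dist_zero_right, Real.norm_eq_abs] at h1
      have hseg : ∀ w ∈ segment ℝ y' y, w ∈ ball z s₂ ∧ x ≠ w := by
        intro w hw
        rw [segment_eq_image_lineMap] at hw
        obtain ⟨θ, hθ, rfl⟩ := hw
        have e1 : AffineMap.lineMap y' y θ = x + ((1 - θ) * τ + θ) • (y - x) := by
          rw [AffineMap.lineMap_apply_module, hy']
          module
        have c0 : 0 < (1 - θ) * τ + θ := by
          rcases eq_or_lt_of_le hθ.2 with h1 | h1
          · rw [h1]; simp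
          · have : 0 < (1 - θ) * τ := mul_pos (by linarith) hτ0
            linarith [hθ.1]
        have c1 : (1 - θ) * τ + θ ≤ 1 := by nlinarith [hθ.1, hθ.2]
        constructor
        · rw [e1]
          have := (convex_ball z s₂) hx hy (sub_nonneg.2 c1) c0.le (by ring)
          convert this using 1
          module
        · rw [e1]
          intro hcon
          have h5 : x + ((1 - θ) * τ + θ) • (y - x) = x + 0 := by rw [← hcon, add_zero]
          rcases smul_eq_zero.1 (add_left_cancel h5) with h0 | h0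
          · exact c0.ne' h0
          · exact hyx h0
      have h2 := (convex_segment y' y).norm_image_sub_le_of_norm_hasFDerivWithin_le (𝕜 := ℝ)
        (f := G) (f' := fun _ => (0 : E2 →L[ℝ] ℝ)) (C := 0)
        (fun w hw => (hG w (hseg w hw).1 (hseg w hw).2).hasFDerivWithinAt)
        (fun w hw => by simp) (left_mem_segment ℝ y' y) (right_mem_segment ℝ y' y)
      rw [zero_mul] at h2
      have h3 : G y - G y' = 0 := norm_le_zero_iff.1 h2
      have h4 : G y = G y' := sub_eq_zero.1 h3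
      rw [h4]; exact h1
    by_contra hcon
    exact lt_irrefl _ (hsmall |G y| (abs_pos.2 hcon))
  have : NiceLocal.Uf ρ ξ x y - a z * ρ x y = 0 := hG0
  exact sub_eq_zero.1 this

end Pool.Agent.Helper4Nets
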