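import Pool.Agent.Helper4_Nets.M4.Gen

/-! Module M4 of the blueprint: basic calculus of a local distance function. -/

set_option autoImplicit false

open Set Filter Topology Metric
open scoped ContDiff

namespace Pool.Agent.Helper4Nets



lemma sg_nonneg (ρ : E2 → E2 → ℝ) (p : E2 × E2) : 0 ≤ sg ρ p := by
  unfold sg; positivity

namespace NiceLocal

variable {ρ : E2 → E2 → ℝ} {z : E2} {s : ℝ} {B : Set E2} (h : NiceLocal ρ z s B)

include h

lemma nhds {x : E2} (hx : x ∈ B) : B ∈ 𝓝 x := h.isOpen.mem_nhds hx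

lemma nhds2 {x y : E2} (hx : x ∈ B) (hy : y ∈ B) : B ×ˢ B ∈ 𝓝 (x, y) :=
  prod_mem_nhds (h.nhds hx) (h.nhds hy)

lemma sg_cd {x y : E2} (hx : x ∈ B) (hy : y ∈ B) : ContDiffAt ℝ 4 (sg ρ) (x, y) :=
  h.smooth.contDiffAt (h.nhds2 hx hy)

lemma sg_cd2 {x y : E2} (hx : x ∈ B) (hy : y ∈ B) : ContDiffAt ℝ 2 (sg ρ) (x, y) :=
  (h.sg_cd hx hy).of_le (by norm_num)

lemma unc_eq (p : E2 × E2) : unc ρ p = √(2 * sg ρ p) := by
  have : 2 * sg ρ p = (unc ρ p) ^ 2 := by unfold sg unc; ring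
  rw [this, Real.sqrt_sq (by exact h.nonneg _ _)]

lemma unc_cd {x y : E2} (hx : x ∈ B) (hy : y ∈ B) (hne : x ≠ y) :
    ContDiffAt ℝ 4 (unc ρ) (x, y) := by
  have e : unc ρ = fun p => √(2 * sg ρ p) := funext h.unc_eq
  rw [e]
  refine ContDiffAt.sqrt ?_ ?_
  · exact contDiffAt_const.mul (h.sg_cd hx hy)
  · have := h.pos x hx y hy hne
    have : 0 < 2 * sg ρ (x, y) := by unfold sg; positivity
    exact this.ne'

lemma unc_cd2 {x y : E2} (hx : x ∈ B) (hy : y ∈ B) (hne : x ≠ y) :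
    ContDiffAt ℝ 2 (unc ρ) (x, y) := (h.unc_cd hx hy hne).of_le (by norm_num)

lemma unc_diff {x y : E2} (hx : x ∈ B) (hy : y ∈ B) (hne : x ≠ y) :
    DifferentiableAt ℝ (unc ρ) (x, y) := (h.unc_cd hx hy hne).differentiableAt (by norm_num)

lemma sg_diff {x y : E2} (hx : x ∈ B) (hy : y ∈ B) :
    DifferentiableAt ℝ (sg ρ) (x, y) := (h.sg_cd hx hy).differentiableAt (by norm_num)

omit h in
lemma sg_eq_unc (p : E2 × E2) : sg ρ p = unc ρ p ^ 2 / 2 := rfl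

lemma fd_sg {x y : E2} (hx : x ∈ B) (hy : y ∈ B) (hne : x ≠ y) :
    fderiv ℝ (sg ρ) (x, y) = ρ x y • fderiv ℝ (unc ρ) (x, y) := by
  have h1 := (h.unc_diff hx hy hne).hasFDerivAt
  have h2 : HasFDerivAt (sg ρ) (ρ x y • fderiv ℝ (unc ρ) (x, y)) (x, y) := by
    have h3 := (h1.pow 2).const_smul (1 / 2 : ℝ)
    refine (h3.congr_fderiv ?_).congr_of_eventuallyEq ?_
    · ext v <;> (simp [unc]; ring)
    · refine Eventually.of_forall (fun p => ?_)
      simp [sg, unc]; ring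
  exact h2.fderiv

omit h in
lemma ne_nhds {x y : E2} (hne : x ≠ y) : ∀ᶠ p : E2 × E2 in 𝓝 (x, y), p.1 ≠ p.2 := by
  have : IsOpen {p : E2 × E2 | p.1 ≠ p.2} := isOpen_ne_fun continuous_fst continuous_snd
  exact this.mem_nhds hne

lemma D2_sg {x y : E2} (hx : x ∈ B) (hy : y ∈ B) (hne : x ≠ y) (v w : E2 × E2) :
    D2 (sg ρ) (x, y) v w = ρ x y * D2 (unc ρ) (x, y) v w +
      fderiv ℝ (unc ρ) (x, y) v * fderiv ℝ (unc ρ) (x, y) w := by
  have h1 : fderiv ℝ (sg ρ) =ᶠ[𝓝 (x, y)] fun p => unc ρ p • fderiv ℝ (unc ρ) p := by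
    filter_upwards [ne_nhds hne, h.nhds2 hx hy] with p hp hpB
    exact h.fd_sg hpB.1 hpB.2 hp
  unfold D2
  rw [h1.fderiv_eq]
  have h2 := (h.unc_diff hx hy hne).hasFDerivAt
  have h3 : DifferentiableAt ℝ (fderiv ℝ (unc ρ)) (x, y) :=
    (contDiffAt_fderiv_of (m := 1) (n := 2) le_rfl (h.unc_cd2 hx hy hne)).differentiableAt
      (by simp)
  have h4 := h2.smul h3.hasFDerivAt
  have h5 : fderiv ℝ (fun p => unc ρ p • fderiv ℝ (unc ρ) p) (x, y) = _ := h4.fderiv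
  rw [h5]
  simp [unc]

lemma fd_sg_diag {x : E2} (hx : x ∈ B) : fderiv ℝ (sg ρ) (x, x) = 0 := by
  have : IsLocalMin (sg ρ) (x, x) := by
    refine Eventually.of_forall (fun p => ?_)
    have : sg ρ (x, x) = 0 := by simp [sg, h.self]
    rw [this]
    exact sg_nonneg ρ p
  exact this.fderiv_eq_zero

lemma D2_sg_diag_left {x : E2} (hx : x ∈ B) (v : E2) (w : E2 × E2) :
    D2 (sg ρ) (x, x) (v, v) w = 0 := by
  have h1 : (fun y : E2 => fderiv ℝ (sg ρ) (y, y)) =ᶠ[𝓝 x] fun _ => 0 := by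
    filter_upwards [h.nhds hx] with y hy using h.fd_sg_diag hy
  have h3 : DifferentiableAt ℝ (fderiv ℝ (sg ρ)) (x, x) :=
    (contDiffAt_fderiv_of (m := 1) (n := 2) le_rfl (h.sg_cd2 hx hx)).differentiableAt
      (by simp)
  have h4 : HasFDerivAt (fun y : E2 => (y, y))
      ((ContinuousLinearMap.id ℝ E2).prod (ContinuousLinearMap.id ℝ E2)) x :=
    (hasFDerivAt_id x).prodMk (hasFDerivAt_id x)
  have h5 := HasFDerivAt.comp x (g := fderiv ℝ (sg ρ)) (f := fun y : E2 => (y, y)) h3.hasFDerivAt h4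
  have h6 : HasFDerivAt (fun y : E2 => fderiv ℝ (sg ρ) (y, y)) (0 : E2 →L[ℝ] (E2 × E2 →L[ℝ] ℝ)) x :=
    (hasFDerivAt_const _ x).congr_of_eventuallyEq h1
  have h7 := h5.unique h6
  have h8 := congrArg (fun L => L v w) h7
  simpa [D2] using h8

lemma D2_sg_symm {x y : E2} (hx : x ∈ B) (hy : y ∈ B) (v w : E2 × E2) :
    D2 (sg ρ) (x, y) v w = D2 (sg ρ) (x, y) w v := D2_symm (h.sg_cd2 hx hy) v w

lemma D2_sg_diag {x : E2} (hx : x ∈ B) (a b a' b' : E2) :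
    D2 (sg ρ) (x, x) (a, b) (a', b') = D2 (sg ρ) (x, x) (0, b - a) (0, b' - a') := by
  have e1 : ((a, b) : E2 × E2) = (a, a) + (0, b - a) := by simp
  have e2 : ((a', b') : E2 × E2) = (a', a') + (0, b' - a') := by simp
  have e3 : D2 (sg ρ) (x, x) (a, b) = D2 (sg ρ) (x, x) (0, b - a) := by
    refine ContinuousLinearMap.ext fun w => ?_
    rw [e1, (D2 (sg ρ) (x, x)).map_add]
    change D2 (sg ρ) (x, x) (a, a) w + D2 (sg ρ) (x, x) (0, b - a) w = _
    rw [h.D2_sg_diag_left hx, zero_add]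
  rw [e3, e2, (D2 (sg ρ) (x, x) (0, b - a)).map_add, h.D2_sg_symm hx hx (0, b - a) (a', a'),
    h.D2_sg_diag_left hx, zero_add]

end NiceLocal

/-- the metric at `x` -/
noncomputable def gm (ρ : E2 → E2 → ℝ) (x v w : E2) : ℝ := D2 (sg ρ) (x, x) (0, v) (0, w)

/-- derivative of `ρ x` at `y`, as a covector at `y` -/
noncomputable def lam (ρ : E2 → E2 → ℝ) (x y : E2) : E2 →L[ℝ] ℝ :=
  (fderiv ℝ (unc ρ) (x, y)).comp (ContinuousLinearMap.inr ℝ E2 E2)

lemma lam_apply (ρ : E2 → E2 → ℝ) (x y w : E2) :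
    lam ρ x y w = fderiv ℝ (unc ρ) (x, y) (0, w) := rfl

lemma gm_add_left (ρ : E2 → E2 → ℝ) (x v v' w : E2) :
    gm ρ x (v + v') w = gm ρ x v w + gm ρ x v' w := by
  unfold gm
  have : ((0, v + v') : E2 × E2) = (0, v) + (0, v') := by simp
  rw [this, map_add]; rfl

lemma gm_smul_left (ρ : E2 → E2 → ℝ) (x : E2) (t : ℝ) (v w : E2) :
    gm ρ x (t • v) w = t * gm ρ x v w := by
  unfold gm
  have : ((0, t • v) : E2 × E2) = t • (0, v) := by simp
  rw [this, map_smul]; rfl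

lemma gm_add_right (ρ : E2 → E2 → ℝ) (x v w w' : E2) :
    gm ρ x v (w + w') = gm ρ x v w + gm ρ x v w' := by
  unfold gm
  have : ((0, w + w') : E2 × E2) = (0, w) + (0, w') := by simp
  rw [this, map_add]

lemma gm_smul_right (ρ : E2 → E2 → ℝ) (x : E2) (t : ℝ) (v w : E2) :
    gm ρ x v (t • w) = t * gm ρ x v w := by
  unfold gm
  have : ((0, t • w) : E2 × E2) = t • (0, w) := by simp
  rw [this, map_smul]; rfl

lemma gm_neg_left (ρ : E2 → E2 → ℝ) (x v w : E2) : gm ρ x (-v) w = - gm ρ x v w := by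
  have := gm_smul_left ρ x (-1) v w
  simpa using this

lemma gm_neg_right (ρ : E2 → E2 → ℝ) (x v w : E2) : gm ρ x v (-w) = - gm ρ x v w := by
  have := gm_smul_right ρ x (-1) v w
  simpa using this

lemma gm_sub_left (ρ : E2 → E2 → ℝ) (x v v' w : E2) :
    gm ρ x (v - v') w = gm ρ x v w - gm ρ x v' w := by
  rw [sub_eq_add_neg, gm_add_left, gm_neg_left]; ring

lemma gm_sub_right (ρ : E2 → E2 → ℝ) (x v w w' : E2) :
    gm ρ x v (w - w') = gm ρ x v w - gm ρ x v w' := by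
  rw [sub_eq_add_neg, gm_add_right, gm_neg_right]; ring

lemma gm_zero_left (ρ : E2 → E2 → ℝ) (x w : E2) : gm ρ x 0 w = 0 := by
  have := gm_smul_left ρ x 0 0 w
  simpa using this

namespace NiceLocal

variable {ρ : E2 → E2 → ℝ} {z : E2} {s : ℝ} {B : Set E2} (h : NiceLocal ρ z s B)

include h

lemma gm_symm {x : E2} (hx : x ∈ B) (v w : E2) : gm ρ x v w = gm ρ x w v :=
  h.D2_sg_symm hx hx _ _

lemma gm_pos {x : E2} (hx : x ∈ B) {v : E2} (hv : v ≠ 0) : 0 < gm ρ x v v :=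
  h.posdef x hx v hv

lemma gm_nonneg {x : E2} (hx : x ∈ B) (v : E2) : 0 ≤ gm ρ x v v := by
  by_cases hv : v = 0
  · subst hv; rw [gm_zero_left]
  · exact (h.gm_pos hx hv).le

/-- Cauchy-Schwarz -/
lemma gm_cs {x : E2} (hx : x ∈ B) (v w : E2) : gm ρ x v w ^ 2 ≤ gm ρ x v v * gm ρ x w w := by
  have key : ∀ t : ℝ, 0 ≤ gm ρ x v v * (t * t) + (2 * gm ρ x v w) * t + gm ρ x w w := by
    intro t
    have := h.gm_nonneg hx (t • v + w)
    rw [gm_add_left, gm_add_right, gm_add_right, gm_smul_left, gm_smul_right, gm_smul_left,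
      gm_smul_right, h.gm_symm hx w v] at this
    nlinarith
  have := discrim_le_zero key
  unfold discrim at this
  nlinarith

/-- the unit gradient -/
lemma exists_grad {x y : E2} (hx : x ∈ B) (hy : y ∈ B) (hne : x ≠ y) :
    ∃ θ : E2, (∀ w, lam ρ x y w = gm ρ y θ w) ∧ gm ρ y θ θ = 1 := by
  obtain ⟨θ, h1, h2⟩ := h.eik x hx y hy
  have hr : 0 < ρ x y := h.pos x hx y hy hne
  refine ⟨(ρ x y)⁻¹ • θ, fun w => ?_, ?_⟩
  · rw [gm_smul_left, lam_apply]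
    have := h1 w
    rw [h.fd_sg hx hy hne] at this
    have e : gm ρ y θ w = ρ x y * fderiv ℝ (unc ρ) (x, y) (0, w) := by
      unfold gm; rw [← this]; rfl
    rw [e]; field_simp
  · rw [gm_smul_left, gm_smul_right]
    have : gm ρ y θ θ = ρ x y ^ 2 := h2
    rw [this]; field_simp

lemma lam_sq_le {x y : E2} (hx : x ∈ B) (hy : y ∈ B) (hne : x ≠ y) (w : E2) :
    lam ρ x y w ^ 2 ≤ gm ρ y w w := by
  obtain ⟨θ, h1, h2⟩ := h.exists_grad hx hy hne
  rw [h1 w]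
  have := h.gm_cs hy θ w
  rw [h2, one_mul] at this
  exact this

lemma unc_swap : (fun p : E2 × E2 => unc ρ ((ContinuousLinearEquiv.prodComm ℝ E2 E2) p)) = unc ρ := by
  funext p
  exact h.symm _ _

lemma fd_unc_swap {x y : E2} (hx : x ∈ B) (hy : y ∈ B) (hne : x ≠ y) (a b : E2) :
    fderiv ℝ (unc ρ) (x, y) (a, b) = fderiv ℝ (unc ρ) (y, x) (b, a) := by
  have h1 := (h.unc_diff hy hx hne.symm).hasFDerivAt
  have h2 : HasFDerivAt (fun p : E2 × E2 => (p.2, p.1))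
      ((ContinuousLinearMap.snd ℝ E2 E2).prod (ContinuousLinearMap.fst ℝ E2 E2)) (x, y) :=
    hasFDerivAt_snd.prodMk hasFDerivAt_fst
  have h3 := HasFDerivAt.comp (x, y) (g := unc ρ) (f := fun p : E2 × E2 => (p.2, p.1)) h1 h2
  have h4 : (unc ρ ∘ fun p : E2 × E2 => (p.2, p.1)) = unc ρ := by
    funext p
    exact h.symm _ _
  rw [h4] at h3
  rw [h3.fderiv]
  rfl

lemma fd_unc {x y : E2} (hx : x ∈ B) (hy : y ∈ B) (hne : x ≠ y) (a b : E2) :
    fderiv ℝ (unc ρ) (x, y) (a, b) = lam ρ y x a + lam ρ x y b := by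
  have e : ((a, b) : E2 × E2) = (a, 0) + (0, b) := by simp
  rw [e, map_add, h.fd_unc_swap hx hy hne a 0]
  rfl

lemma D2_unc_swap {x y : E2} (hx : x ∈ B) (hy : y ∈ B) (hne : x ≠ y) (a b a' b' : E2) :
    D2 (unc ρ) (x, y) (a, b) (a', b') = D2 (unc ρ) (y, x) (b, a) (b', a') := by
  have h1 := D2_comp_clm (f := unc ρ)
    (L := (ContinuousLinearMap.snd ℝ E2 E2).prod (ContinuousLinearMap.fst ℝ E2 E2))
    (x := (x, y)) (h.unc_cd2 hy hx hne.symm) (a, b) (a', b')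
  have h2 : (fun p : E2 × E2 => unc ρ (((ContinuousLinearMap.snd ℝ E2 E2).prod
      (ContinuousLinearMap.fst ℝ E2 E2)) p)) = unc ρ := by
    funext p
    exact h.symm _ _
  rw [h2] at h1
  exact h1

lemma D2_unc_symm {x y : E2} (hx : x ∈ B) (hy : y ∈ B) (hne : x ≠ y) (v w : E2 × E2) :
    D2 (unc ρ) (x, y) v w = D2 (unc ρ) (x, y) w v := D2_symm (h.unc_cd2 hx hy hne) v w

end NiceLocal

end Pool.Agent.Helper4Nets
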