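import Pool.Agent.Helper4_Nets.M4.Cont

/-! Module M4 of the blueprint: continuity of the second field, minima, collinear triples. -/

set_option autoImplicit false

open Set Filter Topology Metric
open scoped ContDiff

namespace Pool.Agent.Helper4Nets

section gen

variable {X : Type*} [NormedAddCommGroup X] [NormedSpace ℝ X]

lemma line_d1 {f : X → ℝ} {x v : X} {t : ℝ} (hf : DifferentiableAt ℝ f (x + t • v)) :
    HasDerivAt (fun t : ℝ => f (x + t • v)) (fderiv ℝ f (x + t • v) v) t := by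
  have h2 : HasDerivAt (fun t : ℝ => x + t • v) v t := by
    simpa using ((hasDerivAt_id t).smul_const v).const_add x
  exact hf.hasFDerivAt.comp_hasDerivAt t h2

lemma line_d2 {f : X → ℝ} {x v : X} {t : ℝ} (hf : ContDiffAt ℝ 2 f (x + t • v)) (w : X) :
    HasDerivAt (fun t : ℝ => fderiv ℝ f (x + t • v) w) (D2 f (x + t • v) v w) t := by
  have h2 : HasDerivAt (fun t : ℝ => x + t • v) v t := by
    simpa using ((hasDerivAt_id t).smul_const v).const_add x
  have h3 : HasFDerivAt (fderiv ℝ f) (D2 f (x + t • v)) (x + t • v) :=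
    ((contDiffAt_fderiv_of (m := 1) (n := 2) le_rfl hf).differentiableAt (by simp)).hasFDerivAt
  have h4 := h3.comp_hasDerivAt t h2
  have h5 := h4.clm_apply (hasDerivAt_const t w)
  simpa using h5

lemma min_hess {f : X → ℝ} {x : X} (hf : ContDiffAt ℝ 2 f x) (hmin : IsLocalMin f x) (v : X) :
    0 ≤ D2 f x v v := by
  by_contra hneg
  push Not at hneg
  set c := D2 f x v v with hc
  have h1 : ∀ᶠ p in 𝓝 x, ContDiffAt ℝ 2 f p := hf.eventually (by simp)
  have h2 : ∀ᶠ p in 𝓝 x, D2 f p v v < c / 2 := by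
    have := D2_apply_cont (f := f) (φ := fun p : X => p) (v := fun _ => v) (w := fun _ => v)
      (p := x) hf continuousAt_id continuousAt_const continuousAt_const
    exact this.eventually (gt_mem_nhds (by change c < c / 2; linarith))
  obtain ⟨r, hr, hs⟩ := Metric.mem_nhds_iff.1 (inter_mem (inter_mem h1 h2) hmin)
  have hcd : ∀ p ∈ ball x r, ContDiffAt ℝ 2 f p := fun p hp => (hs hp).1.1
  set τ := r / (2 * (‖v‖ + 1)) with hτ
  have hτ0 : 0 < τ := by positivity
  have hin : ∀ t ∈ Icc (0 : ℝ) 1, x + t • (τ • v) ∈ ball x r := by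
    intro t ht
    rw [mem_ball, dist_eq_norm, add_sub_cancel_left, norm_smul, norm_smul, Real.norm_eq_abs,
      Real.norm_eq_abs, abs_of_nonneg ht.1, abs_of_pos hτ0]
    have h3 : τ * ‖v‖ ≤ r / 2 := by
      rw [hτ, div_mul_eq_mul_div, div_le_div_iff₀ (by positivity) (by positivity)]
      nlinarith [norm_nonneg v]
    have h4 : t * (τ * ‖v‖) ≤ 1 * (τ * ‖v‖) := by
      gcongr
      exact ht.2
    linarith
  have key := second_order_lower (f := fun t => - f (x + t • (τ • v)))
    (f' := fun t => - fderiv ℝ f (x + t • (τ • v)) (τ • v))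
    (f'' := fun t => - D2 f (x + t • (τ • v)) (τ • v) (τ • v))
    (k := - (τ ^ 2 * (c / 2)))
    (fun t ht => (line_d1 ((hcd _ (hin t ht)).differentiableAt (by simp))).neg)
    (fun t ht => (line_d2 (hcd _ (hin t ht)) _).neg)
    (fun t ht => by
      have a : D2 f (x + t • (τ • v)) v v < c / 2 := (hs (hin t ht)).1.2
      have b : D2 f (x + t • (τ • v)) (τ • v) (τ • v) = τ ^ 2 * D2 f (x + t • (τ • v)) v v := by
        rw [map_smul, map_smul]
        change τ * (τ * D2 f (x + t • (τ • v)) v v) = _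
        ring
      rw [b]
      have : 0 < τ ^ 2 := by positivity
      nlinarith)
  have h5 : f x ≤ f (x + (1 : ℝ) • (τ • v)) := (hs (hin 1 (right_mem_Icc.2 zero_le_one))).2
  simp only [zero_smul, add_zero] at key
  have h6 : fderiv ℝ f x = 0 := hmin.fderiv_eq_zero
  rw [h6] at key
  simp only [zero_apply, neg_zero, add_zero] at key
  have : 0 < τ ^ 2 := by positivity
  nlinarith

lemma null_hess {f : X → ℝ} {x : X} (hf : ContDiffAt ℝ 2 f x) (hmin : IsLocalMin f x) {v : X}
    (hv : D2 f x v v = 0) (w : X) : D2 f x v w = 0 := by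
  have key : ∀ t : ℝ, 0 ≤ D2 f x w w * (t * t) + (2 * D2 f x v w) * t + 0 := by
    intro t
    have h1 := min_hess hf hmin (v + t • w)
    have h2 : D2 f x (v + t • w) (v + t • w) =
        D2 f x w w * (t * t) + (2 * D2 f x v w) * t + 0 := by
      have a : D2 f x (v + t • w) (v + t • w) =
          D2 f x v (v + t • w) + t * D2 f x w (v + t • w) := by
        rw [(D2 f x).map_add, (D2 f x).map_smul]; rfl
      rw [a, (D2 f x v).map_add, (D2 f x w).map_add, (D2 f x v).map_smul, (D2 f x w).map_smul, hv,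
        D2_symm hf w v]
      simp only [smul_eq_mul]; ring
    rwa [h2] at h1
  have h3 := discrim_le_zero key
  unfold discrim at h3
  have h4 : (2 * D2 f x v w) ^ 2 ≤ 0 := by linarith
  have h5 : (2 * D2 f x v w) = 0 := by
    exact pow_eq_zero_iff (two_ne_zero) |>.1 (le_antisymm h4 (sq_nonneg _))
  linarith

end gen

/-- the second derivative of `ρ` at `(p, y)` along the field, in the second variable -/
noncomputable def Dd (ρ : E2 → E2 → ℝ) (ξ : E2 → E2) (p y : E2) : E2 →L[ℝ] ℝ :=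
  (D2 (unc ρ) (p, y) (ξ p, ξ y)).comp (ContinuousLinearMap.inr ℝ E2 E2)

lemma Dd_apply (ρ : E2 → E2 → ℝ) (ξ : E2 → E2) (p y v : E2) :
    Dd ρ ξ p y v = D2 (unc ρ) (p, y) (ξ p, ξ y) (0, v) := rfl

namespace NiceLocal

variable {ρ : E2 → E2 → ℝ} {z : E2} {s : ℝ} {B : Set E2} (h : NiceLocal ρ z s B)

include h

theorem eta_cont {ξ η : E2 → E2} (hF : Flds ρ B ξ η) {m : E2} (hm : m ∈ B) :
    ContinuousAt η m := by
  obtain ⟨e₁, h11⟩ := h.exists_unit hm
  obtain ⟨e₂, h22, h12, hsp⟩ := h.exists_onb hm h11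
  obtain ⟨C, hC⟩ := hF.bdd m hm
  have hC0 : 0 ≤ C := (norm_nonneg _).trans (hC.self_of_nhds).2
  have claim : ∀ e, gm ρ m e e = 1 → Tendsto (fun y => gm ρ m e (η y)) (𝓝 m)
      (𝓝 (gm ρ m e (η m))) := by
    intro e he
    obtain ⟨t, ht0, -, p, hpr, hpB, hpm, -, hpl, -⟩ := h.exists_ray hm he (h.nhds hm) one_pos
    have hξ := h.xi_cont hF hm
    have c1 : ContinuousAt (fun y => D2 (unc ρ) (p, y) (ξ p, ξ y) (ξ p, ξ y)) m :=
      D2_apply_cont (φ := fun y : E2 => (p, y)) (v := fun y => (ξ p, ξ y))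
        (w := fun y => (ξ p, ξ y)) (h.unc_cd2 hpB hm hpm) (by fun_prop)
        (continuousAt_const.prodMk hξ) (continuousAt_const.prodMk hξ)
    have c2 : ContinuousAt (fun y => fderiv ℝ (unc ρ) (p, y) (η p, 0)) m :=
      D1_apply_cont (φ := fun y : E2 => (p, y)) (v := fun _ => (η p, 0))
        ((h.unc_cd hpB hm hpm).of_le (by norm_num)) (by fun_prop) continuousAt_const
    have c3 : Tendsto (fun y => D2 (unc ρ) (p, y) (ξ p, ξ y) (ξ p, ξ y) -
        fderiv ℝ (unc ρ) (p, y) (η p, 0)) (𝓝 m) (𝓝 (lam ρ p m (η m))) := by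
      have e1 : lam ρ p m (η m) = D2 (unc ρ) (p, m) (ξ p, ξ m) (ξ p, ξ m) -
          fderiv ℝ (unc ρ) (p, m) (η p, 0) := by
        rw [hF.eq p hpB m hm hpm, ← map_sub, lam_apply]; simp
      rw [e1]
      exact c1.sub c2
    have c4 : ∀ᶠ y in 𝓝 m, D2 (unc ρ) (p, y) (ξ p, ξ y) (ξ p, ξ y) -
        fderiv ℝ (unc ρ) (p, y) (η p, 0) = lam ρ p y (η y) := by
      have hyp : ∀ᶠ y in 𝓝 m, y ≠ p := (isOpen_ne).mem_nhds hpm.symm
      filter_upwards [hyp, h.nhds hm] with y hy hyB
      rw [hF.eq p hpB y hyB hy.symm, ← map_sub, lam_apply]; simp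
    have c5 := c3.congr' c4
    have c6 : Tendsto (fun y => gm ρ m e (η y) - lam ρ p y (η y)) (𝓝 m) (𝓝 0) := by
      have a := (h.lam_cont hpB hm hpm).mul_const C
      rw [zero_mul] at a
      refine squeeze_zero_norm' ?_ a
      filter_upwards [hC] with y hy
      rw [← hpl, Real.norm_eq_abs, abs_sub_comm]
      refine (lam_sub_le p y m (η y)).trans ?_
      gcongr
      exact hy.2
    have c7 := c5.add c6
    rw [add_zero, hpl] at c7
    refine c7.congr (fun y => ?_)
    ring
  have e : η = fun y => gm ρ m e₁ (η y) • e₁ + gm ρ m e₂ (η y) • e₂ := by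
    funext y; exact hsp (η y)
  unfold ContinuousAt
  rw [e]
  simp only
  have t1 := (claim e₁ h11).smul_const e₁
  have t2 := (claim e₂ h22).smul_const e₂
  have t3 := t1.add t2
  rw [← hsp (η m)] at t3 ⊢
  exact t3.congr (fun y => by rw [← hsp (η y)])

end NiceLocal

end Pool.Agent.Helper4Nets
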