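import Pool.Agent.Helper4_Nets.M4.Dir

/-! Module M4 of the blueprint: continuity of the fields. -/

set_option autoImplicit false

open Set Filter Topology Metric
open scoped ContDiff

namespace Pool.Agent.Helper4Nets

/-- a pair of fields as in the local rigidity theorem -/
structure Flds (ρ : E2 → E2 → ℝ) (B : Set E2) (ξ η : E2 → E2) : Prop where
  bdd : ∀ x ∈ B, ∃ C : ℝ, ∀ᶠ y in 𝓝 x, ‖ξ y‖ ≤ C ∧ ‖η y‖ ≤ C
  eq : ∀ x ∈ B, ∀ y ∈ B, x ≠ y →
    D2 (unc ρ) (x, y) (ξ x, ξ y) (ξ x, ξ y) = fderiv ℝ (unc ρ) (x, y) (η x, η y)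

/-- second order lower bound in one variable -/
lemma second_order_lower {f f' f'' : ℝ → ℝ} {k : ℝ}
    (h1 : ∀ t ∈ Icc (0 : ℝ) 1, HasDerivAt f (f' t) t)
    (h2 : ∀ t ∈ Icc (0 : ℝ) 1, HasDerivAt f' (f'' t) t)
    (h3 : ∀ t ∈ Icc (0 : ℝ) 1, k ≤ f'' t) : f 0 + f' 0 + k / 2 ≤ f 1 := by
  have m1 : ∀ t ∈ Icc (0 : ℝ) 1, f' 0 + k * t ≤ f' t := by
    intro t ht
    have hd : ∀ u ∈ Icc (0 : ℝ) 1, HasDerivAt (fun u => f' u - k * u) (f'' u - k) u := by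
      intro u hu
      exact ((h2 u hu).sub ((hasDerivAt_id u).const_mul k)).congr_deriv (by simp)
    have hm : MonotoneOn (fun u => f' u - k * u) (Icc 0 1) := by
      refine monotoneOn_of_deriv_nonneg (convex_Icc 0 1)
        (fun u hu => (hd u hu).continuousAt.continuousWithinAt)
        (fun u hu => (hd u (interior_subset hu)).differentiableAt.differentiableWithinAt) ?_
      intro u hu
      have hu' := interior_subset hu
      rw [(hd u hu').deriv]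
      linarith [h3 u hu']
    have := hm (left_mem_Icc.2 zero_le_one) ht ht.1
    simp only [mul_zero, sub_zero] at this
    linarith
  have hd : ∀ u ∈ Icc (0 : ℝ) 1, HasDerivAt (fun u => f u - (f' 0 * u + k * u ^ 2 / 2))
      (f' u - (f' 0 + k * u)) u := by
    intro u hu
    have a : HasDerivAt (fun u : ℝ => f' 0 * u + k * u ^ 2 / 2) (f' 0 + k * u) u := by
      have b := ((hasDerivAt_id u).const_mul (f' 0)).add
        ((((hasDerivAt_id u).pow 2).const_mul k).div_const 2)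
      refine (b.congr_deriv ?_)
      simp; ring
    exact (h1 u hu).sub a
  have hm : MonotoneOn (fun u => f u - (f' 0 * u + k * u ^ 2 / 2)) (Icc 0 1) := by
    refine monotoneOn_of_deriv_nonneg (convex_Icc 0 1)
      (fun u hu => (hd u hu).continuousAt.continuousWithinAt)
      (fun u hu => (hd u (interior_subset hu)).differentiableAt.differentiableWithinAt) ?_
    intro u hu
    have hu' := interior_subset hu
    rw [(hd u hu').deriv]
    linarith [m1 u hu']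
  have := hm (left_mem_Icc.2 zero_le_one) (right_mem_Icc.2 zero_le_one) zero_le_one
  simp only [mul_zero] at this
  linarith

namespace NiceLocal

variable {ρ : E2 → E2 → ℝ} {z : E2} {s : ℝ} {B : Set E2} (h : NiceLocal ρ z s B)

include h

/-- a good convex neighbourhood of a diagonal point -/
lemma exists_ball2 {m : E2} (hm : m ∈ B) {P : E2 × E2 → Prop} (hP : ∀ᶠ p in 𝓝 (m, m), P p) :
    ∃ r > 0, ball m r ⊆ B ∧ ∀ x ∈ ball m r, ∀ y ∈ ball m r, P (x, y) := by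
  obtain ⟨r, hr, hs⟩ := Metric.mem_nhds_iff.1 (inter_mem hP (h.nhds2 hm hm))
  refine ⟨r, hr, ?_, ?_⟩
  · intro x hx
    have : (x, x) ∈ ball (m, m) r := by
      rw [← ball_prod_same]; exact ⟨hx, hx⟩
    exact (hs this).2.1
  · intro x hx y hy
    have : (x, y) ∈ ball (m, m) r := by
      rw [← ball_prod_same]; exact ⟨hx, hy⟩
    exact (hs this).1

omit h in
lemma seg_mem {m p y : E2} {r : ℝ} (hp : p ∈ ball m r) (hy : y ∈ ball m r) {t : ℝ}
    (ht : t ∈ Icc (0 : ℝ) 1) : y + t • (p - y) ∈ ball m r := by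
  have := (convex_ball m r) hy hp (sub_nonneg.2 ht.2) ht.1 (by ring)
  convert this using 1
  module

/-- the line `t ↦ (y + t (p - y), y)` -/
lemma line_deriv {p y : E2} {t : ℝ} (hx : y + t • (p - y) ∈ B) (hy : y ∈ B) :
    HasDerivAt (fun t : ℝ => sg ρ (y + t • (p - y), y))
      (fderiv ℝ (sg ρ) (y + t • (p - y), y) (p - y, 0)) t := by
  have h2 : HasDerivAt (fun t : ℝ => (y + t • (p - y), y)) (p - y, 0) t := by
    have a : HasDerivAt (fun t : ℝ => y + t • (p - y)) (p - y) t := by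
      simpa using ((hasDerivAt_id t).smul_const (p - y)).const_add y
    exact a.prodMk (hasDerivAt_const t y)
  exact (h.sg_diff hx hy).hasFDerivAt.comp_hasDerivAt t h2

lemma line_deriv2 {p y : E2} {t : ℝ} (hx : y + t • (p - y) ∈ B) (hy : y ∈ B) (v : E2 × E2) :
    HasDerivAt (fun t : ℝ => fderiv ℝ (sg ρ) (y + t • (p - y), y) v)
      (D2 (sg ρ) (y + t • (p - y), y) (p - y, 0) v) t := by
  have h2 : HasDerivAt (fun t : ℝ => (y + t • (p - y), y)) (p - y, 0) t := by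
    have a : HasDerivAt (fun t : ℝ => y + t • (p - y)) (p - y) t := by
      simpa using ((hasDerivAt_id t).smul_const (p - y)).const_add y
    exact a.prodMk (hasDerivAt_const t y)
  have h3 : HasFDerivAt (fderiv ℝ (sg ρ)) (D2 (sg ρ) (y + t • (p - y), y))
      (y + t • (p - y), y) :=
    ((contDiffAt_fderiv_of (m := 1) (n := 2) le_rfl (h.sg_cd2 hx hy)).differentiableAt
      (by simp)).hasFDerivAt
  have h4 := h3.comp_hasDerivAt t h2
  have h5 := h4.clm_apply (hasDerivAt_const t v)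
  simpa using h5

lemma sg_lower {m : E2} (hm : m ∈ B) : ∃ c > 0, ∃ r > 0, ball m r ⊆ B ∧
    ∀ p ∈ ball m r, ∀ y ∈ ball m r, c * ‖p - y‖ ^ 2 ≤ sg ρ (p, y) := by
  obtain ⟨c, hc, hc2⟩ := h.gm_lower hm
  obtain ⟨r, hr, hrB, hr2⟩ := h.exists_ball2 hm (D2_near (h.sg_cd2 hm hm) (ε := c / 2) (by positivity))
  refine ⟨c / 4, by positivity, r, hr, hrB, fun p hp y hy => ?_⟩
  have key := second_order_lower (f := fun t => sg ρ (y + t • (p - y), y))
    (f' := fun t => fderiv ℝ (sg ρ) (y + t • (p - y), y) (p - y, 0))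
    (f'' := fun t => D2 (sg ρ) (y + t • (p - y), y) (p - y, 0) (p - y, 0))
    (k := c / 2 * ‖p - y‖ ^ 2)
    (fun t ht => h.line_deriv (hrB (seg_mem hp hy ht)) (hrB hy))
    (fun t ht => h.line_deriv2 (hrB (seg_mem hp hy ht)) (hrB hy) _)
    (fun t ht => by
      have h4 := hr2 _ (seg_mem hp hy ht) y hy
      have h5 := D2_sub_le (sg ρ) (y + t • (p - y), y) (m, m) (p - y, 0) (p - y, 0)
      have b : ‖((p - y, 0) : E2 × E2)‖ = ‖p - y‖ := by simp [Prod.norm_def]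
      rw [b] at h5
      have h6 : ‖D2 (sg ρ) (y + t • (p - y), y) - D2 (sg ρ) (m, m)‖ * ‖p - y‖ * ‖p - y‖ ≤
          c / 2 * ‖p - y‖ * ‖p - y‖ := by gcongr
      have h7 : D2 (sg ρ) (m, m) (p - y, 0) (p - y, 0) = gm ρ m (p - y) (p - y) := by
        rw [h.D2_sg_diag hm]
        have e1 : (0 : E2) - (p - y) = -(p - y) := by abel
        rw [e1]
        change gm ρ m (-(p - y)) (-(p - y)) = _
        rw [gm_neg_left, gm_neg_right, neg_neg]
      rw [h7] at h5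
      have h8 := (abs_le.1 (h5.trans h6)).1
      have h9 := hc2 (p - y)
      nlinarith)
  simp only [zero_smul, add_zero, one_smul, add_sub_cancel] at key
  have e1 : sg ρ (y, y) = 0 := by simp [sg, h.self]
  rw [e1, h.fd_sg_diag (hrB hy)] at key
  simp only [zero_apply, zero_add] at key
  linarith

/-- `D₁ρ + D₂ρ` is small near the diagonal -/
lemma lam_add_small {m : E2} (hm : m ∈ B) {δ : ℝ} (hδ : 0 < δ) : ∃ r > 0, ball m r ⊆ B ∧
    ∀ p ∈ ball m r, ∀ y ∈ ball m r, p ≠ y → ∀ v, |lam ρ y p v + lam ρ p y v| ≤ δ * ‖v‖ := by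
  obtain ⟨c, hc, r₁, hr₁, hr₁B, hlow⟩ := h.sg_lower hm
  obtain ⟨r₂, hr₂, hr₂B, hr₂2⟩ := h.exists_ball2 hm
    (D2_near (h.sg_cd2 hm hm) (ε := δ * √(2 * c)) (by positivity))
  refine ⟨min r₁ r₂, lt_min hr₁ hr₂, (ball_subset_ball (min_le_left _ _)).trans hr₁B, ?_⟩
  intro p hp y hy hne v
  have hp1 : p ∈ ball m r₁ := ball_subset_ball (min_le_left _ _) hp
  have hy1 : y ∈ ball m r₁ := ball_subset_ball (min_le_left _ _) hy
  have hp2 : p ∈ ball m r₂ := ball_subset_ball (min_le_right _ _) hp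
  have hy2 : y ∈ ball m r₂ := ball_subset_ball (min_le_right _ _) hy
  have hpB := hr₂B hp2
  have hyB := hr₂B hy2
  -- mean value inequality for `t ↦ Dσ(y + t (p - y), y)(v, v)`
  have hbound : ∀ t ∈ Icc (0 : ℝ) 1,
      ‖D2 (sg ρ) (y + t • (p - y), y) (p - y, 0) (v, v)‖ ≤ δ * √(2 * c) * ‖p - y‖ * ‖v‖ := by
    intro t ht
    have h4 := hr₂2 _ (seg_mem hp2 hy2 ht) y hy2
    have h5 := D2_sub_le (sg ρ) (y + t • (p - y), y) (m, m) (p - y, 0) (v, v)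
    have b : ‖((p - y, 0) : E2 × E2)‖ = ‖p - y‖ := by simp [Prod.norm_def]
    have b' : ‖((v, v) : E2 × E2)‖ = ‖v‖ := by simp [Prod.norm_def]
    rw [h.D2_sg_symm hm hm, h.D2_sg_diag_left hm, sub_zero, b, b'] at h5
    rw [Real.norm_eq_abs]
    refine h5.trans ?_
    gcongr
  have hmv := Convex.norm_image_sub_le_of_norm_hasDerivWithin_le
    (f := fun t : ℝ => fderiv ℝ (sg ρ) (y + t • (p - y), y) (v, v))
    (f' := fun t => D2 (sg ρ) (y + t • (p - y), y) (p - y, 0) (v, v))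
    (s := Icc (0 : ℝ) 1) (x := 0) (y := 1) (C := δ * √(2 * c) * ‖p - y‖ * ‖v‖)
    (fun t ht => (h.line_deriv2 (hr₂B (seg_mem hp2 hy2 ht)) hyB (v, v)).hasDerivWithinAt)
    hbound (convex_Icc 0 1) (left_mem_Icc.2 zero_le_one) (right_mem_Icc.2 zero_le_one)
  simp only [zero_smul, add_zero, one_smul, add_sub_cancel, sub_zero, norm_one, mul_one] at hmv
  rw [h.fd_sg_diag hyB] at hmv
  simp only [zero_apply, sub_zero, Real.norm_eq_abs] at hmv
  rw [h.fd_sg hpB hyB hne] at hmv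
  have e1 : (ρ p y • fderiv ℝ (unc ρ) (p, y)) (v, v) = ρ p y * (lam ρ y p v + lam ρ p y v) := by
    rw [← h.fd_unc hpB hyB hne]; rfl
  rw [e1, abs_mul] at hmv
  have hρ := h.pos p hpB y hyB hne
  rw [abs_of_pos hρ] at hmv
  -- ρ ≥ √(2c) ‖p - y‖
  have hlow' : √(2 * c) * ‖p - y‖ ≤ ρ p y := by
    have := hlow p hp1 y hy1
    have e2 : sg ρ (p, y) = ρ p y ^ 2 / 2 := rfl
    rw [e2] at this
    have e3 : (√(2 * c) * ‖p - y‖) ^ 2 ≤ ρ p y ^ 2 := by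
      rw [mul_pow, Real.sq_sqrt (by positivity)]; linarith
    exact le_of_sq_le_sq e3 hρ.le
  have hfin : ρ p y * |lam ρ y p v + lam ρ p y v| ≤ ρ p y * (δ * ‖v‖) := by
    refine hmv.trans ?_
    have : δ * √(2 * c) * ‖p - y‖ * ‖v‖ = (√(2 * c) * ‖p - y‖) * (δ * ‖v‖) := by ring
    rw [this]
    gcongr
  exact le_of_mul_le_mul_left hfin hρ

/-- local upper bound for the covectors `lam` -/
lemma lam_bound {m : E2} (hm : m ∈ B) : ∃ K > 0, ∃ r > 0, ball m r ⊆ B ∧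
    ∀ p ∈ B, ∀ y ∈ ball m r, p ≠ y → ∀ v, |lam ρ p y v| ≤ K * ‖v‖ := by
  obtain ⟨r, hr, hrB, hr2⟩ := h.exists_ball2 hm (D2_near (h.sg_cd2 hm hm) one_pos)
  set K0 := ‖D2 (sg ρ) (m, m)‖ + 1 with hK0
  have hK0pos : 0 < K0 := by positivity
  refine ⟨√K0, Real.sqrt_pos.2 hK0pos, r, hr, hrB, fun p hp y hy hne v => ?_⟩
  have h1 := h.lam_sq_le hp (hrB hy) hne v
  have h2 := hr2 y hy y hy
  have h3 : ‖D2 (sg ρ) (y, y)‖ ≤ K0 := by
    have := norm_le_insert' (D2 (sg ρ) (y, y)) (D2 (sg ρ) (m, m))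
    linarith
  have h4 : gm ρ y v v ≤ K0 * ‖v‖ ^ 2 := by
    have a := ContinuousLinearMap.le_opNorm₂ (D2 (sg ρ) (y, y)) (0, v) (0, v)
    have b : ‖((0, v) : E2 × E2)‖ = ‖v‖ := by simp [Prod.norm_def]
    rw [b, Real.norm_eq_abs] at a
    have c := (le_abs_self _).trans a
    have e : ‖D2 (sg ρ) (y, y)‖ * ‖v‖ * ‖v‖ ≤ K0 * ‖v‖ * ‖v‖ := by gcongr
    have : gm ρ y v v = D2 (sg ρ) (y, y) (0, v) (0, v) := rfl
    rw [this]; nlinarith
  have h5 : lam ρ p y v ^ 2 ≤ (√K0 * ‖v‖) ^ 2 := by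
    rw [mul_pow, Real.sq_sqrt hK0pos.le]; exact h1.trans h4
  exact abs_le_of_sq_le_sq h5 (by positivity)

/-- the key inequality for continuity -/
lemma key_ineq {ξ η : E2 → E2} (hF : Flds ρ B ξ η) {m : E2} (hm : m ∈ B) {ε : ℝ} (hε : 0 < ε) :
    ∃ r > 0, ball m r ⊆ B ∧ ∀ p ∈ ball m r, ∀ y ∈ ball m r, p ≠ y →
      gm ρ m (ξ p - ξ y) (ξ p - ξ y) ≤ lam ρ p y (ξ p - ξ y) ^ 2 + ε := by
  obtain ⟨C, hC⟩ := hF.bdd m hm
  have hC0 : 0 ≤ C := (norm_nonneg _).trans (hC.self_of_nhds).1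
  obtain ⟨r₀, hr₀, hr₀C⟩ := Metric.mem_nhds_iff.1 hC
  obtain ⟨K, hK, r₁, hr₁, hr₁B, hlam⟩ := h.lam_bound hm
  set δ := min 1 (ε / (C + 4 * K * C ^ 2 + 2 * C ^ 2 + 1)) with hδ
  have hden : 0 < C + 4 * K * C ^ 2 + 2 * C ^ 2 + 1 := by positivity
  have hδ0 : 0 < δ := lt_min one_pos (by positivity)
  have hδ1 : δ ≤ 1 := min_le_left _ _
  have hδε : δ * (C + 4 * K * C ^ 2 + 2 * C ^ 2 + 1) ≤ ε := by
    have : δ ≤ ε / (C + 4 * K * C ^ 2 + 2 * C ^ 2 + 1) := min_le_right _ _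
    rwa [le_div_iff₀ hden] at this
  obtain ⟨r₂, hr₂, hr₂B, hadd⟩ := h.lam_add_small hm hδ0
  obtain ⟨r₃, hr₃, hr₃B, hD2⟩ := h.exists_ball2 hm (D2_near (h.sg_cd2 hm hm) hδ0)
  have hD1' : ∀ᶠ p in 𝓝 (m, m), ‖fderiv ℝ (sg ρ) p‖ < δ := by
    have := D1_cont' (f := sg ρ) (x := (m, m)) ((h.sg_cd hm hm).of_le (by norm_num))
    rw [h.fd_sg_diag hm] at this
    simp only [sub_zero] at this
    exact this.eventually (gt_mem_nhds hδ0)
  obtain ⟨r₄, hr₄, hr₄B, hD1⟩ := h.exists_ball2 hm hD1'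
  refine ⟨min r₀ (min r₁ (min r₂ (min r₃ r₄))), by positivity, ?_, ?_⟩
  · exact (ball_subset_ball ((min_le_right _ _).trans (min_le_left _ _))).trans hr₁B
  intro p hp y hy hne
  have inc0 : ball m (min r₀ (min r₁ (min r₂ (min r₃ r₄)))) ⊆ ball m r₀ :=
    ball_subset_ball (min_le_left _ _)
  have inc1 : ball m (min r₀ (min r₁ (min r₂ (min r₃ r₄)))) ⊆ ball m r₁ :=
    ball_subset_ball ((min_le_right _ _).trans (min_le_left _ _))
  have inc2 : ball m (min r₀ (min r₁ (min r₂ (min r₃ r₄)))) ⊆ ball m r₂ :=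
    ball_subset_ball ((min_le_right _ _).trans ((min_le_right _ _).trans (min_le_left _ _)))
  have inc3 : ball m (min r₀ (min r₁ (min r₂ (min r₃ r₄)))) ⊆ ball m r₃ :=
    ball_subset_ball ((min_le_right _ _).trans ((min_le_right _ _).trans
      ((min_le_right _ _).trans (min_le_left _ _))))
  have inc4 : ball m (min r₀ (min r₁ (min r₂ (min r₃ r₄)))) ⊆ ball m r₄ :=
    ball_subset_ball ((min_le_right _ _).trans ((min_le_right _ _).trans
      ((min_le_right _ _).trans (min_le_right _ _))))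
  have hpB := hr₁B (inc1 hp)
  have hyB := hr₁B (inc1 hy)
  obtain ⟨hξp, hηp⟩ := hr₀C (inc0 hp)
  obtain ⟨hξy, hηy⟩ := hr₀C (inc0 hy)
  set d := ξ p - ξ y with hd
  have hdn : ‖d‖ ≤ 2 * C := (norm_sub_le _ _).trans (by linarith)
  have e1 : D2 (sg ρ) (p, y) (ξ p, ξ y) (ξ p, ξ y) =
      fderiv ℝ (sg ρ) (p, y) (η p, η y) + fderiv ℝ (unc ρ) (p, y) (ξ p, ξ y) ^ 2 := by
    rw [h.D2_sg hpB hyB hne, hF.eq p hpB y hyB hne, h.fd_sg hpB hyB hne]
    simp; ring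
  have e2 : fderiv ℝ (unc ρ) (p, y) (ξ p, ξ y) =
      (lam ρ y p (ξ p) + lam ρ p y (ξ p)) - lam ρ p y d := by
    rw [h.fd_unc hpB hyB hne, hd, map_sub]; ring
  have e3 : D2 (sg ρ) (m, m) (ξ p, ξ y) (ξ p, ξ y) = gm ρ m d d := by
    rw [h.D2_sg_diag hm]
    have : ξ y - ξ p = -d := by rw [hd]; abel
    rw [this]
    change gm ρ m (-d) (-d) = _
    rw [gm_neg_left, gm_neg_right, neg_neg]
  have b1 : |D2 (sg ρ) (p, y) (ξ p, ξ y) (ξ p, ξ y) - gm ρ m d d| ≤ δ * C * C := by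
    rw [← e3]
    refine (D2_sub_le _ _ _ _ _).trans ?_
    have n1 : ‖((ξ p, ξ y) : E2 × E2)‖ ≤ C := by
      rw [Prod.norm_def]; exact max_le hξp hξy
    have n2 := (hD2 p (inc3 hp) y (inc3 hy)).le
    gcongr
  have b2 : |fderiv ℝ (sg ρ) (p, y) (η p, η y)| ≤ δ * C := by
    have n1 : ‖((η p, η y) : E2 × E2)‖ ≤ C := by
      rw [Prod.norm_def]; exact max_le hηp hηy
    have n2 := (hD1 p (inc4 hp) y (inc4 hy)).le
    have n3 := ContinuousLinearMap.le_opNorm (fderiv ℝ (sg ρ) (p, y)) (η p, η y)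
    rw [Real.norm_eq_abs] at n3
    refine n3.trans ?_
    gcongr
  set A := lam ρ p y d with hA
  set Er := lam ρ y p (ξ p) + lam ρ p y (ξ p) with hEr
  have b3 : |A| ≤ K * (2 * C) := (hlam p hpB y (inc1 hy) hne d).trans (by gcongr)
  have b4 : |Er| ≤ δ * C := (hadd p (inc2 hp) y (inc2 hy) hne (ξ p)).trans (by gcongr)
  rw [e1, e2] at b1
  have b5 := (abs_le.1 b1).1
  have b6 := (abs_le.1 b2).2
  have b7 : -(A * Er) ≤ K * (2 * C) * (δ * C) := by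
    have : |A * Er| ≤ K * (2 * C) * (δ * C) := by
      rw [abs_mul]; gcongr
    linarith [(abs_le.1 this).1]
  have b8 : Er ^ 2 ≤ (δ * C) ^ 2 := sq_le_sq' (abs_le.1 b4).1 (abs_le.1 b4).2
  have b9 : (δ * C) ^ 2 ≤ δ * C ^ 2 := by
    have : δ ^ 2 ≤ δ := by nlinarith
    rw [mul_pow]; gcongr
  nlinarith

/-- the quadratic form `g - λ²`, with `λ = g(e,·)` -/
lemma quad_sub_le {m : E2} (hm : m ∈ B) {e : E2} (he : gm ρ m e e = 1) (a b : E2) :
    gm ρ m (a - b) (a - b) - gm ρ m e (a - b) ^ 2 ≤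
      2 * (gm ρ m a a - gm ρ m e a ^ 2) + 2 * (gm ρ m b b - gm ρ m e b ^ 2) := by
  have h1 : 0 ≤ gm ρ m (a + b) (a + b) - gm ρ m e (a + b) ^ 2 := by
    have := h.gm_cs hm e (a + b)
    rw [he, one_mul] at this
    linarith
  rw [gm_add_left, gm_add_right, gm_add_right, gm_add_right, h.gm_symm hm b a] at h1
  rw [gm_sub_left, gm_sub_right, gm_sub_right, gm_sub_right, h.gm_symm hm b a]
  nlinarith

lemma gm_parseval {m : E2} (hm : m ∈ B) {e₁ e₂ : E2} (h11 : gm ρ m e₁ e₁ = 1)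
    (h22 : gm ρ m e₂ e₂ = 1) (h12 : gm ρ m e₁ e₂ = 0)
    (hsp : ∀ v, v = gm ρ m e₁ v • e₁ + gm ρ m e₂ v • e₂) (v : E2) :
    gm ρ m v v = gm ρ m e₁ v ^ 2 + gm ρ m e₂ v ^ 2 := by
  have e := hsp v
  set a := gm ρ m e₁ v with ha
  set b := gm ρ m e₂ v with hb
  calc gm ρ m v v = gm ρ m (a • e₁ + b • e₂) (a • e₁ + b • e₂) := by rw [← e]
    _ = a ^ 2 + b ^ 2 := by
      rw [gm_add_left, gm_add_right, gm_add_right]
      simp only [gm_smul_left, gm_smul_right]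
      rw [h.gm_symm hm e₂ e₁, h11, h22, h12]; ring

lemma lam_cont {p m : E2} (hp : p ∈ B) (hm : m ∈ B) (hne : p ≠ m) :
    Tendsto (fun y => ‖fderiv ℝ (unc ρ) (p, y) - fderiv ℝ (unc ρ) (p, m)‖) (𝓝 m) (𝓝 0) := by
  have h1 := D1_cont' (f := unc ρ) (x := (p, m)) ((h.unc_cd hp hm hne).of_le (by norm_num))
  have h2 : Tendsto (fun y : E2 => (p, y)) (𝓝 m) (𝓝 (p, m)) :=
    (Continuous.prodMk_right p).tendsto m
  exact h1.comp h2

omit h in
lemma lam_sub_le (p y m v : E2) :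
    |lam ρ p y v - lam ρ p m v| ≤ ‖fderiv ℝ (unc ρ) (p, y) - fderiv ℝ (unc ρ) (p, m)‖ * ‖v‖ := by
  have := ContinuousLinearMap.le_opNorm (fderiv ℝ (unc ρ) (p, y) - fderiv ℝ (unc ρ) (p, m)) (0, v)
  have b' : ‖((0, v) : E2 × E2)‖ = ‖v‖ := by simp [Prod.norm_def]
  rw [b', Real.norm_eq_abs] at this
  exact this

theorem xi_cont {ξ η : E2 → E2} (hF : Flds ρ B ξ η) {m : E2} (hm : m ∈ B) :
    ContinuousAt ξ m := by
  obtain ⟨e₁, h11⟩ := h.exists_unit hm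
  obtain ⟨e₂, h22, h12, hsp⟩ := h.exists_onb hm h11
  obtain ⟨c, hc, hlow⟩ := h.gm_lower hm
  obtain ⟨C, hC⟩ := hF.bdd m hm
  have hC0 : 0 ≤ C := (norm_nonneg _).trans (hC.self_of_nhds).1
  obtain ⟨K, hK, r₁, hr₁, hr₁B, hlam⟩ := h.lam_bound hm
  -- claim for one direction
  have claim : ∀ ε > 0, ∀ e, gm ρ m e e = 1 → ∀ᶠ y in 𝓝 m,
      gm ρ m (ξ y - ξ m) (ξ y - ξ m) - gm ρ m e (ξ y - ξ m) ^ 2 ≤ 6 * ε := by
    intro ε hε e he
    obtain ⟨r, hr, hrB, hkey⟩ := h.key_ineq hF hm hε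
    obtain ⟨t, ht0, -, p, hpr, hpB, hpm, -, hpl, -⟩ :=
      h.exists_ray hm he (ball_mem_nhds m hr) one_pos
    obtain ⟨Cp, hCp⟩ : ∃ Cp : ℝ, ∀ᶠ y in 𝓝 m, ‖ξ p - ξ y‖ ≤ Cp := by
      refine ⟨‖ξ p‖ + C, ?_⟩
      filter_upwards [hC] with y hy
      exact (norm_sub_le _ _).trans (by linarith [hy.1])
    have hCp0 : 0 ≤ Cp := (norm_nonneg _).trans hCp.self_of_nhds
    set δ := ε / (Cp * (2 * K * Cp + 2 * K * Cp) + 1) with hδ
    have hδ0 : 0 < δ := by positivity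
    have hδε : δ * (Cp * (2 * K * Cp + 2 * K * Cp)) ≤ ε := by
      have : δ * (Cp * (2 * K * Cp + 2 * K * Cp) + 1) = ε := by
        rw [hδ]; field_simp
      nlinarith
    have hnear : ∀ᶠ y in 𝓝 m, ‖fderiv ℝ (unc ρ) (p, y) - fderiv ℝ (unc ρ) (p, m)‖ < δ :=
      (h.lam_cont hpB hm hpm).eventually (gt_mem_nhds hδ0)
    have hyp : ∀ᶠ y in 𝓝 m, y ≠ p := (isOpen_ne).mem_nhds hpm.symm
    have hm2 : gm ρ m (ξ p - ξ m) (ξ p - ξ m) - gm ρ m e (ξ p - ξ m) ^ 2 ≤ ε := by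
      have := hkey p hpr m (mem_ball_self hr) hpm
      rw [hpl] at this
      linarith
    filter_upwards [hCp, hnear, hyp, ball_mem_nhds m hr, ball_mem_nhds m hr₁] with y h1 h2 h3 h4 h5
    have h6 := hkey p hpr y h4 h3.symm
    have h7 := lam_sub_le (ρ := ρ) p y m (ξ p - ξ y)
    have h8 : |lam ρ p y (ξ p - ξ y) - gm ρ m e (ξ p - ξ y)| ≤ δ * Cp := by
      rw [← hpl]
      refine h7.trans ?_
      have := h2.le
      gcongr
    have h9 : |lam ρ p y (ξ p - ξ y)| ≤ K * Cp :=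
      (hlam p hpB y h5 h3.symm _).trans (by gcongr)
    have h10 : |gm ρ m e (ξ p - ξ y)| ≤ K * Cp := by
      rw [← hpl]
      exact (hlam p hpB m (mem_ball_self hr₁) hpm _).trans (by gcongr)
    have h11' : lam ρ p y (ξ p - ξ y) ^ 2 - gm ρ m e (ξ p - ξ y) ^ 2 ≤ ε := by
      have e1 : lam ρ p y (ξ p - ξ y) ^ 2 - gm ρ m e (ξ p - ξ y) ^ 2 =
        (lam ρ p y (ξ p - ξ y) - gm ρ m e (ξ p - ξ y)) *
        (lam ρ p y (ξ p - ξ y) + gm ρ m e (ξ p - ξ y)) := by ring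
      have e2 : |lam ρ p y (ξ p - ξ y) + gm ρ m e (ξ p - ξ y)| ≤ 2 * K * Cp + 2 * K * Cp := by
        refine (abs_add_le _ _).trans ?_
        have : 0 ≤ K * Cp := by positivity
        linarith
      have e3 : |lam ρ p y (ξ p - ξ y) ^ 2 - gm ρ m e (ξ p - ξ y) ^ 2| ≤
          (δ * Cp) * (2 * K * Cp + 2 * K * Cp) := by
        rw [e1, abs_mul]; gcongr
      have := (le_abs_self _).trans e3
      nlinarith
    have h12' : gm ρ m (ξ p - ξ y) (ξ p - ξ y) - gm ρ m e (ξ p - ξ y) ^ 2 ≤ 2 * ε := by linarith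
    have h13 := h.quad_sub_le hm he (ξ p - ξ m) (ξ p - ξ y)
    have e4 : (ξ p - ξ m) - (ξ p - ξ y) = ξ y - ξ m := by abel
    rw [e4] at h13
    linarith
  rw [Metric.continuousAt_iff']
  intro ε hε
  set ε' := c * ε ^ 2 / 24 with hε'
  have hε'0 : 0 < ε' := by positivity
  filter_upwards [claim ε' hε'0 e₁ h11, claim ε' hε'0 e₂ h22] with y h1 h2
  have h3 := h.gm_parseval hm h11 h22 h12 hsp (ξ y - ξ m)
  have h4 : gm ρ m (ξ y - ξ m) (ξ y - ξ m) ≤ 12 * ε' := by linarith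
  have h5 := hlow (ξ y - ξ m)
  rw [dist_eq_norm]
  have h6 : ‖ξ y - ξ m‖ ^ 2 < ε ^ 2 := by
    have : c * ‖ξ y - ξ m‖ ^ 2 ≤ c * (ε ^ 2 / 2) := by
      calc c * ‖ξ y - ξ m‖ ^ 2 ≤ 12 * ε' := h5.trans h4
        _ = c * (ε ^ 2 / 2) := by rw [hε']; ring
    have h7 := le_of_mul_le_mul_left this hc
    have : 0 < ε ^ 2 := by positivity
    linarith
  exact lt_of_pow_lt_pow_left₀ 2 hε.le h6

end NiceLocal

end Pool.Agent.Helper4Nets
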