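import Pool.Agent.Helper4_Nets.M4.Basic

/-! Module M4 of the blueprint: all directions occur; injectivity. -/

set_option autoImplicit false

open Set Filter Topology Metric
open scoped ContDiff

namespace Pool.Agent.Helper4Nets

/-- the derivative of `ρ²/2` at `(p, m)` in the second variable -/
noncomputable def Psi (ρ : E2 → E2 → ℝ) (m p : E2) : E2 →L[ℝ] ℝ :=
  (fderiv ℝ (sg ρ) (p, m)).comp (ContinuousLinearMap.inr ℝ E2 E2)

/-- the metric at `m` as a linear map to the dual -/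
noncomputable def gmL (ρ : E2 → E2 → ℝ) (m e : E2) : E2 →L[ℝ] ℝ :=
  (D2 (sg ρ) (m, m) (0, e)).comp (ContinuousLinearMap.inr ℝ E2 E2)

lemma gmL_apply (ρ : E2 → E2 → ℝ) (m e w : E2) : gmL ρ m e w = gm ρ m e w := rfl

lemma Psi_apply (ρ : E2 → E2 → ℝ) (m p w : E2) :
    Psi ρ m p w = fderiv ℝ (sg ρ) (p, m) (0, w) := rfl

/-- the linear version of `gmL` -/
noncomputable def gmLin (ρ : E2 → E2 → ℝ) (m : E2) : E2 →ₗ[ℝ] (E2 →L[ℝ] ℝ) where
  toFun := gmL ρ m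
  map_add' := by
    intro a b
    refine ContinuousLinearMap.ext fun w => ?_
    exact gm_add_left ρ m a b w
  map_smul' := by
    intro t a
    refine ContinuousLinearMap.ext fun w => ?_
    exact gm_smul_left ρ m t a w

lemma finrank_dual_E2 : Module.finrank ℝ (E2 →L[ℝ] ℝ) = Module.finrank ℝ E2 := by
  have e : (E2 →ₗ[ℝ] ℝ) ≃ₗ[ℝ] (E2 →L[ℝ] ℝ) := LinearMap.toContinuousLinearMap
  rw [← e.finrank_eq]
  exact Subspace.dual_finrank_eq

namespace NiceLocal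

variable {ρ : E2 → E2 → ℝ} {z : E2} {s : ℝ} {B : Set E2} (h : NiceLocal ρ z s B)

include h

lemma gm_eq_zero {m : E2} (hm : m ∈ B) {e : E2} (he : ∀ w, gm ρ m e w = 0) : e = 0 := by
  by_contra hne
  exact (h.gm_pos hm hne).ne' (he e)

lemma gm_ext {m : E2} (hm : m ∈ B) {e e' : E2} (he : ∀ w, gm ρ m e w = gm ρ m e' w) : e = e' := by
  have : e - e' = 0 := h.gm_eq_zero hm (fun w => by rw [gm_sub_left, he w, sub_self])
  exact sub_eq_zero.1 this

lemma gmLin_inj {m : E2} (hm : m ∈ B) : Function.Injective (gmLin ρ m) := by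
  intro e e' hee
  exact h.gm_ext hm (fun w => congrArg (fun l => l w) hee)

lemma gmLin_surj {m : E2} (hm : m ∈ B) : Function.Surjective (gmLin ρ m) := by
  rw [← LinearMap.injective_iff_surjective_of_finrank_eq_finrank finrank_dual_E2.symm]
  exact h.gmLin_inj hm

lemma riesz {m : E2} (hm : m ∈ B) (l : E2 →L[ℝ] ℝ) : ∃ e, ∀ w, l w = gm ρ m e w := by
  obtain ⟨e, he⟩ := h.gmLin_surj hm l
  exact ⟨e, fun w => by rw [← he]; rfl⟩

lemma Psi_self {m : E2} (hm : m ∈ B) : Psi ρ m m = 0 := by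
  refine ContinuousLinearMap.ext fun w => ?_
  rw [Psi_apply, h.fd_sg_diag hm]; rfl

lemma Psi_eq {p m : E2} (hp : p ∈ B) (hm : m ∈ B) (hne : p ≠ m) (w : E2) :
    Psi ρ m p w = ρ p m * lam ρ p m w := by
  rw [Psi_apply, h.fd_sg hp hm hne]; rfl

/-- general derivative of `Psi` -/
lemma Psi_strict {p m : E2} (hp : p ∈ B) (hm : m ∈ B) :
    HasStrictFDerivAt (Psi ρ m)
      (((((ContinuousLinearMap.compL ℝ E2 (E2 × E2) ℝ).flip (ContinuousLinearMap.inr ℝ E2 E2)).comp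
      (D2 (sg ρ) (p, m)))).comp (ContinuousLinearMap.inl ℝ E2 E2)) p := by
  have h1 : ContDiffAt ℝ 1 (fderiv ℝ (sg ρ)) (p, m) :=
    contDiffAt_fderiv_of (m := 1) (n := 2) le_rfl (h.sg_cd2 hp hm)
  have h2 : HasStrictFDerivAt (fderiv ℝ (sg ρ)) (D2 (sg ρ) (p, m)) (p, m) :=
    h1.hasStrictFDerivAt (by simp)
  have h3 : HasStrictFDerivAt (fun q : E2 => (q, m)) (ContinuousLinearMap.inl ℝ E2 E2) p :=
    (hasStrictFDerivAt_id p).prodMk (hasStrictFDerivAt_const m p)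
  have h4 := (((ContinuousLinearMap.compL ℝ E2 (E2 × E2) ℝ).flip
    (ContinuousLinearMap.inr ℝ E2 E2)).hasStrictFDerivAt (x := fderiv ℝ (sg ρ) (p, m))).comp
    (p, m) h2
  have h5 := HasStrictFDerivAt.comp p (f := fun q : E2 => (q, m)) h4 h3
  exact h5

lemma Psi_open {m : E2} (hm : m ∈ B) {W : Set E2} (hW : W ∈ 𝓝 m) :
    Psi ρ m '' W ∈ 𝓝 (0 : E2 →L[ℝ] ℝ) := by
  have h1 := h.Psi_strict hm hm
  set L := (((((ContinuousLinearMap.compL ℝ E2 (E2 × E2) ℝ).flip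
    (ContinuousLinearMap.inr ℝ E2 E2)).comp
      (D2 (sg ρ) (m, m)))).comp (ContinuousLinearMap.inl ℝ E2 E2)) with hL
  have h2 : ∀ w v, L w v = - gm ρ m w v := by
    intro w v
    have e1 : L w v = D2 (sg ρ) (m, m) (w, 0) (0, v) := rfl
    rw [e1, h.D2_sg_diag hm]
    have e2 := gm_neg_left ρ m w v
    unfold gm at e2
    simpa [gm] using e2
  have h3 : (L : E2 →L[ℝ] (E2 →L[ℝ] ℝ)).range = ⊤ := by
    rw [LinearMap.range_eq_top]
    intro l
    obtain ⟨e, he⟩ := h.riesz hm l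
    refine ⟨-e, ContinuousLinearMap.ext fun w => ?_⟩
    change L (-e) w = l w
    rw [h2, gm_neg_left, neg_neg, he]
  have h4 := h1.map_nhds_eq_of_surj h3
  rw [h.Psi_self hm] at h4
  rw [← h4]
  exact image_mem_map hW

lemma ray {m : E2} (hm : m ∈ B) {e : E2} (he : gm ρ m e e = 1) {W : Set E2} (hW : W ∈ 𝓝 m) :
    ∀ᶠ t in 𝓝[>] (0 : ℝ), ∃ p ∈ W, p ∈ B ∧ p ≠ m ∧ ρ p m = t ∧
      (∀ w, lam ρ p m w = gm ρ m e w) ∧ ∀ w, Psi ρ m p w = t * gm ρ m e w := by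
  have h1 := h.Psi_open hm (inter_mem hW (h.nhds hm))
  have h2 : Tendsto (fun t : ℝ => t • gmL ρ m e) (𝓝[>] 0) (𝓝 0) := by
    have : Tendsto (fun t : ℝ => t • gmL ρ m e) (𝓝 0) (𝓝 ((0 : ℝ) • gmL ρ m e)) :=
      (continuous_id.smul continuous_const).tendsto 0
    rw [zero_smul] at this
    exact this.mono_left nhdsWithin_le_nhds
  filter_upwards [h2 h1, self_mem_nhdsWithin] with t ht ht0
  have ht0' : 0 < t := ht0
  obtain ⟨p, ⟨hpW, hpB⟩, hp⟩ := ht
  have hPsi : ∀ w, Psi ρ m p w = t * gm ρ m e w := by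
    intro w; rw [hp]; rfl
  have hne : p ≠ m := by
    rintro rfl
    have := hPsi e
    rw [h.Psi_self hm, he, mul_one] at this
    exact ht0'.ne this
  have hr : ρ p m = t := by
    obtain ⟨θ, h3, h4⟩ := h.eik p hpB m hm
    have h5 : θ = t • e := by
      refine h.gm_ext hm (fun w => ?_)
      rw [gm_smul_left, ← hPsi w]
      exact (h3 w).symm
    have h6 : gm ρ m θ θ = ρ p m ^ 2 := h4
    rw [h5, gm_smul_left, gm_smul_right, he, mul_one] at h6
    have h7 := h.nonneg p m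
    nlinarith [sq_nonneg (ρ p m - t)]
  refine ⟨p, hpW, hpB, hne, hr, fun w => ?_, hPsi⟩
  have h8 := h.Psi_eq hpB hm hne w
  rw [hPsi w, hr] at h8
  exact (mul_left_cancel₀ ht0'.ne' h8).symm

lemma exists_ray {m : E2} (hm : m ∈ B) {e : E2} (he : gm ρ m e e = 1) {W : Set E2}
    (hW : W ∈ 𝓝 m) {ε : ℝ} (hε : 0 < ε) :
    ∃ t, 0 < t ∧ t < ε ∧ ∃ p ∈ W, p ∈ B ∧ p ≠ m ∧ ρ p m = t ∧
      (∀ w, lam ρ p m w = gm ρ m e w) ∧ ∀ w, Psi ρ m p w = t * gm ρ m e w := by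
  have h1 := h.ray hm he hW
  have h2 : ∀ᶠ t in 𝓝[>] (0 : ℝ), t < ε :=
    nhdsWithin_le_nhds (Iio_mem_nhds hε)
  obtain ⟨t, ht, ht1, ht2⟩ := (h1.and (h2.and self_mem_nhdsWithin)).exists
  exact ⟨t, ht2, ht1, ht⟩

/-- lower bound of the metric -/
lemma gm_lower {m : E2} (hm : m ∈ B) : ∃ c > 0, ∀ w : E2, c * ‖w‖ ^ 2 ≤ gm ρ m w w := by
  have hcont : Continuous fun w : E2 => gm ρ m w w := by
    unfold gm
    exact ((D2 (sg ρ) (m, m)).continuous.comp
      (by fun_prop : Continuous fun w : E2 => ((0 : E2), w))).clm_apply (by fun_prop)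
  have hcomp : IsCompact (sphere (0 : E2) 1) := isCompact_sphere 0 1
  have hne : (sphere (0 : E2) 1).Nonempty := NormedSpace.sphere_nonempty.2 zero_le_one
  obtain ⟨v, hv, hvmin⟩ := hcomp.exists_isMinOn hne hcont.continuousOn
  have hv0 : v ≠ 0 := by
    rintro rfl
    simp at hv
  refine ⟨gm ρ m v v, h.gm_pos hm hv0, fun w => ?_⟩
  by_cases hw : w = 0
  · subst hw
    rw [gm_zero_left]; simp
  · have hn : 0 < ‖w‖ := norm_pos_iff.2 hw
    have h1 : (‖w‖⁻¹ • w) ∈ sphere (0 : E2) 1 := by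
      simp [norm_smul, hn.ne']
    have h2 := hvmin h1
    simp only [mem_ofPred_eq] at h2
    have h3 : gm ρ m w w = ‖w‖ ^ 2 * gm ρ m (‖w‖⁻¹ • w) (‖w‖⁻¹ • w) := by
      rw [gm_smul_left, gm_smul_right]; field_simp
    rw [h3, mul_comm]
    exact mul_le_mul_of_nonneg_left h2 (by positivity)

/-- orthonormal bases -/
lemma exists_onb {m : E2} (hm : m ∈ B) {e₁ : E2} (he : gm ρ m e₁ e₁ = 1) :
    ∃ e₂, gm ρ m e₂ e₂ = 1 ∧ gm ρ m e₁ e₂ = 0 ∧
      ∀ v, v = gm ρ m e₁ v • e₁ + gm ρ m e₂ v • e₂ := by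
  have he0 : e₁ ≠ 0 := by
    rintro rfl
    rw [gm_zero_left] at he
    exact zero_ne_one he
  obtain ⟨b, hb⟩ : ∃ b : E2, b ∉ Submodule.span ℝ {e₁} := by
    by_contra hcon
    push Not at hcon
    have h1 : Submodule.span ℝ {e₁} = ⊤ := by
      ext v; simp [hcon v]
    have h2 := finrank_span_singleton (K := ℝ) he0
    rw [h1] at h2
    simp at h2
  set f := b - gm ρ m e₁ b • e₁ with hf
  have hf0 : f ≠ 0 := by
    intro h0
    apply hb
    rw [Submodule.mem_span_singleton]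
    exact ⟨gm ρ m e₁ b, (sub_eq_zero.1 h0).symm⟩
  have hef : gm ρ m e₁ f = 0 := by
    rw [hf, gm_sub_right, gm_smul_right, he]; ring
  have hg := h.gm_pos hm hf0
  set r := √(gm ρ m f f) with hr
  have hr0 : 0 < r := Real.sqrt_pos.2 hg
  have hrr : r * r = gm ρ m f f := Real.mul_self_sqrt hg.le
  have h22 : gm ρ m (r⁻¹ • f) (r⁻¹ • f) = 1 := by
    rw [gm_smul_left, gm_smul_right, ← hrr]; field_simp
  have h12 : gm ρ m e₁ (r⁻¹ • f) = 0 := by
    rw [gm_smul_right, hef]; ring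
  refine ⟨r⁻¹ • f, h22, h12, ?_⟩
  set e₂ := r⁻¹ • f with he₂
  have hli : LinearIndependent ℝ ![e₁, e₂] := by
    rw [LinearIndependent.pair_iff]
    intro s t hst
    have a1 : gm ρ m e₁ (s • e₁ + t • e₂) = s := by
      rw [gm_add_right, gm_smul_right, gm_smul_right, he, h12]; ring
    have a2 : gm ρ m e₂ (s • e₁ + t • e₂) = t := by
      rw [gm_add_right, gm_smul_right, gm_smul_right, h.gm_symm hm e₂ e₁, h12, h22]; ring
    rw [hst] at a1 a2
    have a3 : ∀ e, gm ρ m e 0 = 0 := fun e => by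
      have := gm_smul_right ρ m 0 e 0
      simpa using this
    rw [a3] at a1 a2
    exact ⟨a1.symm, a2.symm⟩
  have hspan : Submodule.span ℝ (Set.range ![e₁, e₂]) = ⊤ :=
    hli.span_eq_top_of_card_eq_finrank (by simp)
  intro v
  set d := v - (gm ρ m e₁ v • e₁ + gm ρ m e₂ v • e₂) with hd
  have d1 : gm ρ m d e₁ = 0 := by
    rw [hd, gm_sub_left, gm_add_left, gm_smul_left, gm_smul_left, he, h.gm_symm hm e₂ e₁, h12,
      h.gm_symm hm v e₁]; ring
  have d2 : gm ρ m d e₂ = 0 := by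
    rw [hd, gm_sub_left, gm_add_left, gm_smul_left, gm_smul_left, h12, h22,
      h.gm_symm hm v e₂]; ring
  have hdz : d = 0 := by
    refine h.gm_eq_zero hm (fun w => ?_)
    have hw : w ∈ Submodule.span ℝ (Set.range ![e₁, e₂]) := by rw [hspan]; trivial
    have : Set.range ![e₁, e₂] = {e₁, e₂} := by simp [Set.pair_comm]
    rw [this, Submodule.mem_span_pair] at hw
    obtain ⟨a, b, rfl⟩ := hw
    rw [gm_add_right, gm_smul_right, gm_smul_right, d1, d2]; ring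
  exact sub_eq_zero.1 hdz

lemma exists_unit {m : E2} (hm : m ∈ B) : ∃ e₁, gm ρ m e₁ e₁ = 1 := by
  obtain ⟨v, hv⟩ := exists_ne (0 : E2)
  have hg := h.gm_pos hm hv
  refine ⟨(√(gm ρ m v v))⁻¹ • v, ?_⟩
  have hs : 0 < √(gm ρ m v v) := Real.sqrt_pos.2 hg
  rw [gm_smul_left, gm_smul_right]
  have := Real.mul_self_sqrt hg.le
  field_simp
  nlinarith

/-- strict monotonicity of `Psi` near the diagonal -/
lemma exists_mono : ∃ s₁ > 0, ball z s₁ ⊆ B ∧ ∃ c > 0, ∀ x ∈ ball z s₁, ∀ m ∈ ball z s₁, ∀ w : E2,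
    D2 (sg ρ) (x, m) (w, 0) (0, w) ≤ - c * ‖w‖ ^ 2 := by
  have hz : z ∈ B := h.ball_sub (mem_ball_self h.s_pos)
  obtain ⟨c, hc, hc2⟩ := h.gm_lower hz
  have h3 : ∀ᶠ p in 𝓝 (z, z), ‖D2 (sg ρ) p - D2 (sg ρ) (z, z)‖ < c / 2 :=
    D2_near (h.sg_cd2 hz hz) (by positivity)
  obtain ⟨s₁, hs₁, hs⟩ := Metric.mem_nhds_iff.1 (inter_mem h3 (h.nhds2 hz hz))
  refine ⟨s₁, hs₁, ?_, c / 2, by positivity, ?_⟩
  · intro x hx
    have : (x, x) ∈ ball (z, z) s₁ := by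
      rw [← ball_prod_same]; exact ⟨hx, hx⟩
    exact (hs this).2.1
  · intro x hx m hm w
    have hxm : (x, m) ∈ ball (z, z) s₁ := by
      rw [← ball_prod_same]; exact ⟨hx, hm⟩
    have h4 := (hs hxm).1
    have h5 : |(D2 (sg ρ) (x, m) - D2 (sg ρ) (z, z)) (w, 0) (0, w)| ≤ c / 2 * ‖w‖ * ‖w‖ := by
      have a := ContinuousLinearMap.le_opNorm₂ (D2 (sg ρ) (x, m) - D2 (sg ρ) (z, z)) (w, 0) (0, w)
      have b : ‖((w, 0) : E2 × E2)‖ = ‖w‖ := by simp [Prod.norm_def]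
      have b' : ‖((0, w) : E2 × E2)‖ = ‖w‖ := by simp [Prod.norm_def]
      rw [b, b', Real.norm_eq_abs] at a
      refine a.trans ?_
      have h4' : ‖D2 (sg ρ) (x, m) - D2 (sg ρ) (z, z)‖ ≤ c / 2 := h4.le
      gcongr
    have h6 : D2 (sg ρ) (z, z) (w, 0) (0, w) = - gm ρ z w w := by
      rw [h.D2_sg_diag hz]
      have e2 := gm_neg_left ρ z w w
      unfold gm at e2
      simpa [gm] using e2
    have h7 : (D2 (sg ρ) (x, m) - D2 (sg ρ) (z, z)) (w, 0) (0, w) =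
      D2 (sg ρ) (x, m) (w, 0) (0, w) - D2 (sg ρ) (z, z) (w, 0) (0, w) := rfl
    rw [h7, h6] at h5
    have h8 := (abs_le.1 h5).2
    have h9 := hc2 w
    nlinarith [sq_nonneg ‖w‖]

lemma exists_inj : ∃ s₁ > 0, ball z s₁ ⊆ B ∧ (∃ c > 0, ∀ x ∈ ball z s₁, ∀ m ∈ ball z s₁, ∀ w : E2,
    D2 (sg ρ) (x, m) (w, 0) (0, w) ≤ - c * ‖w‖ ^ 2) ∧
    ∀ m ∈ ball z s₁, ∀ p ∈ ball z s₁, ∀ p' ∈ ball z s₁, Psi ρ m p = Psi ρ m p' → p = p' := by
  obtain ⟨s₁, hs₁, hsB, c, hc, hmono⟩ := h.exists_mono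
  refine ⟨s₁, hs₁, hsB, ⟨c, hc, hmono⟩, ?_⟩
  intro m hm p hp p' hp' hPsi
  by_contra hne
  set w := p - p' with hw
  have hw0 : w ≠ 0 := sub_ne_zero.2 hne
  have hseg : ∀ t ∈ Icc (0 : ℝ) 1, p' + t • w ∈ ball z s₁ := by
    intro t ht
    have hconv : Convex ℝ (ball z s₁) := convex_ball z s₁
    have := hconv hp' hp (sub_nonneg.2 ht.2) ht.1 (by ring)
    convert this using 1
    rw [hw]; module
  let f : ℝ → ℝ := fun t => Psi ρ m (p' + t • w) w
  have hf : ∀ t ∈ Icc (0 : ℝ) 1, HasDerivAt f (D2 (sg ρ) (p' + t • w, m) (w, 0) (0, w)) t := by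
    intro t ht
    have hx := hseg t ht
    have h1 := (h.Psi_strict (hsB hx) (hsB hm)).hasFDerivAt
    have h2 : HasDerivAt (fun t : ℝ => p' + t • w) w t := by
      simpa using ((hasDerivAt_id t).smul_const w).const_add p'
    have h3 := h1.comp_hasDerivAt t h2
    have h4 := h3.clm_apply (hasDerivAt_const t w)
    simpa [f] using h4
  have hanti : StrictAntiOn f (Icc 0 1) := by
    refine strictAntiOn_of_deriv_neg (convex_Icc 0 1) (fun t ht => (hf t ht).continuousAt.continuousWithinAt) ?_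
    intro t ht
    rw [interior_Icc] at ht
    have ht' : t ∈ Icc (0 : ℝ) 1 := ⟨ht.1.le, ht.2.le⟩
    rw [(hf t ht').deriv]
    have := hmono _ (hseg t ht') m hm w
    have : 0 < c * ‖w‖ ^ 2 := by
      have := norm_pos_iff.2 hw0
      positivity
    linarith
  have h1 := hanti (left_mem_Icc.2 zero_le_one) (right_mem_Icc.2 zero_le_one) zero_lt_one
  have h2 : f 0 = f 1 := by
    simp only [f, zero_smul, add_zero, one_smul]
    rw [← hPsi]
    congr 2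
    rw [hw]; abel
  exact h1.ne h2.symm

end NiceLocal

theorem directions : Directions := by
  intro ρ z s B h m hm l hl δ hδ
  obtain ⟨e, he⟩ := h.riesz hm l
  have he0 : e ≠ 0 := by
    rintro rfl
    apply hl
    refine ContinuousLinearMap.ext fun w => ?_
    rw [he w, gm_zero_left]; rfl
  have hg := h.gm_pos hm he0
  have hs : 0 < √(gm ρ m e e) := Real.sqrt_pos.2 hg
  have hee : gm ρ m ((√(gm ρ m e e))⁻¹ • e) ((√(gm ρ m e e))⁻¹ • e) = 1 := by
    rw [gm_smul_left, gm_smul_right]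
    have := Real.mul_self_sqrt hg.le
    field_simp
    nlinarith
  obtain ⟨t, ht, -, p, hpW, hpB, hne, -, hlam, -⟩ :=
    h.exists_ray hm hee (ball_mem_nhds m hδ) one_pos
  refine ⟨p, hpB, hne, ?_, (√(gm ρ m e e))⁻¹, inv_pos.2 hs, fun w => ?_⟩
  · rwa [mem_ball, dist_eq_norm] at hpW
  · have := hlam w
    rw [lam_apply, gm_smul_left, ← he w] at this
    exact this

end Pool.Agent.Helper4Nets
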