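import Pool.Agent.Helper4_Nets.Defs

/-! Generic calculus lemmas for second derivatives. -/

set_option autoImplicit false

open Set Filter Topology Metric
open scoped ContDiff

namespace Pool.Agent.Helper4Nets

section gen

variable {X Y : Type*} [NormedAddCommGroup X] [NormedSpace ℝ X]
  [NormedAddCommGroup Y] [NormedSpace ℝ Y]

lemma D2_symm {f : X → ℝ} {x : X} (hf : ContDiffAt ℝ 2 f x) (v w : X) :
    D2 f x v w = D2 f x w v := by
  have h := hf.isSymmSndFDerivAt (by simp)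
  exact h v w

lemma contDiffAt_fderiv_of {f : X → ℝ} {x : X} {m n : ℕ} (h : m + 1 ≤ n)
    (hf : ContDiffAt ℝ n f x) : ContDiffAt ℝ m (fderiv ℝ f) x :=
  hf.fderiv_right (by exact_mod_cast h)

lemma D2_congr {f g : X → ℝ} {x : X} (h : f =ᶠ[𝓝 x] g) : D2 f x = D2 g x := by
  unfold D2
  exact (h.fderiv).fderiv_eq

/-- second derivative of a composition with a continuous linear map -/
lemma D2_comp_clm {f : Y → ℝ} {L : X →L[ℝ] Y} {x : X} (hf : ContDiffAt ℝ 2 f (L x)) (v w : X) :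
    D2 (fun p => f (L p)) x v w = D2 f (L x) (L v) (L w) := by
  have h1 : fderiv ℝ (fun p => f (L p)) =ᶠ[𝓝 x] fun p => (fderiv ℝ f (L p)).comp L := by
    have h2 : ∀ᶠ q in 𝓝 (L x), ContDiffAt ℝ 2 f q := hf.eventually (by simp)
    have h3 := L.continuous.continuousAt.eventually h2
    filter_upwards [h3] with p hp
    have : DifferentiableAt ℝ f (L p) := hp.differentiableAt (by simp)
    exact (this.hasFDerivAt.comp p L.hasFDerivAt).fderiv
  unfold D2
  rw [h1.fderiv_eq]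
  have h4 : DifferentiableAt ℝ (fderiv ℝ f) (L x) :=
    (contDiffAt_fderiv_of (m := 1) (n := 2) le_rfl hf).differentiableAt (by simp)
  have h5 : HasFDerivAt (fun p => (fderiv ℝ f (L p)).comp L)
      ((((ContinuousLinearMap.compL ℝ X Y ℝ).flip L).comp (fderiv ℝ (fderiv ℝ f) (L x))).comp L) x := by
    have a := (h4.hasFDerivAt.comp x L.hasFDerivAt)
    have b := (((ContinuousLinearMap.compL ℝ X Y ℝ).flip L).hasFDerivAt
      (x := fderiv ℝ f (L x))).comp x a
    exact b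
  rw [h5.fderiv]
  rfl

lemma D2_cont' {f : X → ℝ} {x : X} (hf : ContDiffAt ℝ 2 f x) :
    Tendsto (fun p => ‖D2 f p - D2 f x‖) (𝓝 x) (𝓝 0) := by
  have h1 : ContDiffAt ℝ 1 (fderiv ℝ f) x := hf.fderiv_right (by norm_num)
  have h2 : ContDiffAt ℝ 0 (fderiv ℝ (fderiv ℝ f)) x := h1.fderiv_right (by norm_num)
  have h3 := h2.continuousAt
  exact tendsto_iff_norm_sub_tendsto_zero.1 h3

lemma D2_near {f : X → ℝ} {x : X} (hf : ContDiffAt ℝ 2 f x) {ε : ℝ} (hε : 0 < ε) :
    ∀ᶠ p in 𝓝 x, ‖D2 f p - D2 f x‖ < ε :=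
  (D2_cont' hf).eventually (gt_mem_nhds hε)

lemma D2_sub_le (f : X → ℝ) (x y v w : X) :
    |D2 f x v w - D2 f y v w| ≤ ‖D2 f x - D2 f y‖ * ‖v‖ * ‖w‖ := by
  have := ContinuousLinearMap.le_opNorm₂ (D2 f x - D2 f y) v w
  rw [Real.norm_eq_abs] at this
  exact this

lemma D2_apply_cont {P : Type*} [TopologicalSpace P] {f : X → ℝ} {φ v w : P → X} {p : P}
    (hf : ContDiffAt ℝ 2 f (φ p))
    (hφ : ContinuousAt φ p) (hv : ContinuousAt v p) (hw : ContinuousAt w p) :
    ContinuousAt (fun q => D2 f (φ q) (v q) (w q)) p := by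
  have h1 : ContDiffAt ℝ 1 (fderiv ℝ f) (φ p) := hf.fderiv_right (by norm_num)
  have h2 : ContDiffAt ℝ 0 (fderiv ℝ (fderiv ℝ f)) (φ p) := h1.fderiv_right (by norm_num)
  have h3 := h2.continuousAt.comp hφ
  exact (h3.clm_apply hv).clm_apply hw

lemma D1_apply_cont {P : Type*} [TopologicalSpace P] {f : X → ℝ} {φ v : P → X} {p : P}
    (hf : ContDiffAt ℝ 1 f (φ p))
    (hφ : ContinuousAt φ p) (hv : ContinuousAt v p) :
    ContinuousAt (fun q => fderiv ℝ f (φ q) (v q)) p := by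
  have h2 : ContDiffAt ℝ 0 (fderiv ℝ f) (φ p) := hf.fderiv_right (by norm_num)
  have h3 := h2.continuousAt.comp hφ
  exact h3.clm_apply hv

lemma D1_cont' {f : X → ℝ} {x : X} (hf : ContDiffAt ℝ 1 f x) :
    Tendsto (fun p => ‖fderiv ℝ f p - fderiv ℝ f x‖) (𝓝 x) (𝓝 0) := by
  have h2 : ContDiffAt ℝ 0 (fderiv ℝ f) x := hf.fderiv_right (by norm_num)
  exact tendsto_iff_norm_sub_tendsto_zero.1 h2.continuousAt

end gen

end Pool.Agent.Helper4Nets
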