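import Pool.Agent.Helper4_Nets.M4.Split

/-! Module M4 of the blueprint: collinear triples, statement `P1`. -/

set_option autoImplicit false

open Set Filter Topology Metric
open scoped ContDiff

namespace Pool.Agent.Helper4Nets

section gen

variable {X : Type*} [NormedAddCommGroup X] [NormedSpace ℝ X]

lemma D2_add' {f g : X → ℝ} {x : X} (hf : ContDiffAt ℝ 2 f x) (hg : ContDiffAt ℝ 2 g x)
    (v w : X) : D2 (fun p => f p + g p) x v w = D2 f x v w + D2 g x v w := by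
  have h1 : fderiv ℝ (fun p => f p + g p) =ᶠ[𝓝 x] fun p => fderiv ℝ f p + fderiv ℝ g p := by
    filter_upwards [hf.eventually (by simp), hg.eventually (by simp)] with p hp hp'
    exact fderiv_fun_add (hp.differentiableAt (by simp)) (hp'.differentiableAt (by simp))
  have h2 : DifferentiableAt ℝ (fderiv ℝ f) x :=
    (contDiffAt_fderiv_of (m := 1) (n := 2) le_rfl hf).differentiableAt (by simp)
  have h3 : DifferentiableAt ℝ (fderiv ℝ g) x :=
    (contDiffAt_fderiv_of (m := 1) (n := 2) le_rfl hg).differentiableAt (by simp)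
  unfold D2
  rw [h1.fderiv_eq, fderiv_fun_add h2 h3]
  rfl

lemma D2_neg' {f : X → ℝ} {x : X} (v w : X) : D2 (fun p => - f p) x v w = - D2 f x v w := by
  have h1 : fderiv ℝ (fun p => - f p) = fun p => - fderiv ℝ f p := by
    funext p
    exact fderiv_fun_neg
  unfold D2
  rw [h1, fderiv_fun_neg]
  rfl

end gen

/-- the projections of the space of triples -/
noncomputable def L12 : (E2 × E2 × E2) →L[ℝ] E2 × E2 :=
  (ContinuousLinearMap.fst ℝ E2 (E2 × E2)).prod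
    ((ContinuousLinearMap.fst ℝ E2 E2).comp (ContinuousLinearMap.snd ℝ E2 (E2 × E2)))

noncomputable def L23 : (E2 × E2 × E2) →L[ℝ] E2 × E2 := ContinuousLinearMap.snd ℝ E2 (E2 × E2)

noncomputable def L13 : (E2 × E2 × E2) →L[ℝ] E2 × E2 :=
  (ContinuousLinearMap.fst ℝ E2 (E2 × E2)).prod
    ((ContinuousLinearMap.snd ℝ E2 E2).comp (ContinuousLinearMap.snd ℝ E2 (E2 × E2)))

/-- excess in the triangle inequality -/
noncomputable def Gx (ρ : E2 → E2 → ℝ) (P : E2 × E2 × E2) : ℝ :=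
  (unc ρ (L12 P) + unc ρ (L23 P)) + - unc ρ (L13 P)

namespace NiceLocal

variable {ρ : E2 → E2 → ℝ} {z : E2} {s : ℝ} {B : Set E2} (h : NiceLocal ρ z s B)

include h

lemma Gx_nonneg (P : E2 × E2 × E2) : 0 ≤ Gx ρ P := by
  have := h.tri P.1 P.2.1 P.2.2
  unfold Gx unc L12 L23 L13
  simp only [ContinuousLinearMap.prod_apply, ContinuousLinearMap.comp_apply,
    ContinuousLinearMap.coe_fst', ContinuousLinearMap.coe_snd']
  linarith

section triple

set_option linter.unusedSectionVars false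

variable {x m y : E2} (hx : x ∈ B) (hm : m ∈ B) (hy : y ∈ B) (hxm : x ≠ m) (hmy : m ≠ y)
  (hxy : x ≠ y)

include hx hm hy hxm hmy hxy

lemma cd12 : ContDiffAt ℝ 2 (fun P => unc ρ (L12 P)) (x, m, y) :=
  ContDiffAt.comp (x, m, y) (g := unc ρ) (f := L12) (h.unc_cd2 hx hm hxm) L12.contDiff.contDiffAt

lemma cd23 : ContDiffAt ℝ 2 (fun P => unc ρ (L23 P)) (x, m, y) :=
  ContDiffAt.comp (x, m, y) (g := unc ρ) (f := L23) (h.unc_cd2 hm hy hmy) L23.contDiff.contDiffAt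

lemma cd13 : ContDiffAt ℝ 2 (fun P => unc ρ (L13 P)) (x, m, y) :=
  ContDiffAt.comp (x, m, y) (g := unc ρ) (f := L13) (h.unc_cd2 hx hy hxy) L13.contDiff.contDiffAt

lemma Gx_cd : ContDiffAt ℝ 2 (Gx ρ) (x, m, y) :=
  ((h.cd12 hx hm hy hxm hmy hxy).add (h.cd23 hx hm hy hxm hmy hxy)).add
    (h.cd13 hx hm hy hxm hmy hxy).neg

lemma Gx_fd (a b c : E2) : fderiv ℝ (Gx ρ) (x, m, y) (a, b, c) =
    fderiv ℝ (unc ρ) (x, m) (a, b) + fderiv ℝ (unc ρ) (m, y) (b, c) -
      fderiv ℝ (unc ρ) (x, y) (a, c) := by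
  have h1 := (h.unc_diff hx hm hxm).hasFDerivAt.comp (x, m, y) (f := L12) L12.hasFDerivAt
  have h2 := (h.unc_diff hm hy hmy).hasFDerivAt.comp (x, m, y) (f := L23) L23.hasFDerivAt
  have h3 := (h.unc_diff hx hy hxy).hasFDerivAt.comp (x, m, y) (f := L13) L13.hasFDerivAt
  have h4 := (h1.add h2).add h3.neg
  have h5 : fderiv ℝ (Gx ρ) (x, m, y) = _ := h4.fderiv
  rw [h5]
  rfl

lemma Gx_D2 (a b c a' b' c' : E2) : D2 (Gx ρ) (x, m, y) (a, b, c) (a', b', c') =
    D2 (unc ρ) (x, m) (a, b) (a', b') + D2 (unc ρ) (m, y) (b, c) (b', c') -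
      D2 (unc ρ) (x, y) (a, c) (a', c') := by
  have h12 := h.cd12 hx hm hy hxm hmy hxy
  have h23 := h.cd23 hx hm hy hxm hmy hxy
  have h13 := h.cd13 hx hm hy hxm hmy hxy
  have e1 := D2_add' (h12.add h23) h13.neg (a, b, c) (a', b', c')
  have e2 := D2_add' h12 h23 (a, b, c) (a', b', c')
  have e3 := D2_neg' (f := fun P => unc ρ (L13 P)) (x := (x, m, y)) (a, b, c) (a', b', c')
  have k1 := D2_comp_clm (f := unc ρ) (L := L12) (x := (x, m, y)) (h.unc_cd2 hx hm hxm)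
    (a, b, c) (a', b', c')
  have k2 := D2_comp_clm (f := unc ρ) (L := L23) (x := (x, m, y)) (h.unc_cd2 hm hy hmy)
    (a, b, c) (a', b', c')
  have k3 := D2_comp_clm (f := unc ρ) (L := L13) (x := (x, m, y)) (h.unc_cd2 hx hy hxy)
    (a, b, c) (a', b', c')
  have e0 : D2 (Gx ρ) (x, m, y) (a, b, c) (a', b', c') = _ := e1
  rw [e0]
  have e2' : D2 (fun p => unc ρ (L12 p) + unc ρ (L23 p)) (x, m, y) (a, b, c) (a', b', c') = _ := e2
  rw [k1, k2] at e2'
  have e3' := e3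
  rw [k3] at e3'
  have e4 : D2 (unc ρ) (L12 (x, m, y)) (L12 (a, b, c)) (L12 (a', b', c')) =
    D2 (unc ρ) (x, m) (a, b) (a', b') := rfl
  have e5 : D2 (unc ρ) (L23 (x, m, y)) (L23 (a, b, c)) (L23 (a', b', c')) =
    D2 (unc ρ) (m, y) (b, c) (b', c') := rfl
  have e6 : D2 (unc ρ) (L13 (x, m, y)) (L13 (a, b, c)) (L13 (a', b', c')) =
    D2 (unc ρ) (x, y) (a, c) (a', c') := rfl
  rw [e4, e5] at e2'
  rw [e6] at e3'
  refine (congrArg₂ (· + ·) e2' e3').trans ?_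
  ring

variable (hcol : ρ x y = ρ x m + ρ m y)

include hcol

lemma Gx_min : IsLocalMin (Gx ρ) (x, m, y) := by
  refine Eventually.of_forall (fun P => ?_)
  have : Gx ρ (x, m, y) = 0 := by
    change ρ x m + ρ m y + - ρ x y = 0
    rw [hcol]; ring
  rw [this]
  exact h.Gx_nonneg P

lemma lam_col : lam ρ x m + lam ρ y m = 0 := by
  refine ContinuousLinearMap.ext fun w => ?_
  have h1 := (h.Gx_min hx hm hy hxm hmy hxy hcol).fderiv_eq_zero
  have h2 := h.Gx_fd hx hm hy hxm hmy hxy 0 w 0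
  rw [h1, h.fd_unc_swap hm hy hmy] at h2
  have h3 : fderiv ℝ (unc ρ) (x, y) (0, 0) = 0 := map_zero _
  rw [h3, sub_zero] at h2
  exact h2.symm

lemma Dd_col {ξ η : E2 → E2} (hF : Flds ρ B ξ η) : Dd ρ ξ x m + Dd ρ ξ y m = 0 := by
  refine ContinuousLinearMap.ext fun w => ?_
  have hmin := h.Gx_min hx hm hy hxm hmy hxy hcol
  have hcd := h.Gx_cd hx hm hy hxm hmy hxy
  have h1 : D2 (Gx ρ) (x, m, y) (ξ x, ξ m, ξ y) (ξ x, ξ m, ξ y) = 0 := by
    rw [h.Gx_D2 hx hm hy hxm hmy hxy, hF.eq x hx m hm hxm, hF.eq m hm y hy hmy,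
      hF.eq x hx y hy hxy, ← h.Gx_fd hx hm hy hxm hmy hxy, hmin.fderiv_eq_zero]
    rfl
  have h2 := null_hess hcd hmin h1 (0, w, 0)
  rw [h.Gx_D2 hx hm hy hxm hmy hxy, h.D2_unc_swap hm hy hmy] at h2
  have h3 : D2 (unc ρ) (x, y) (ξ x, ξ y) (0, 0) = 0 := map_zero _
  rw [h3, sub_zero] at h2
  exact h2

end triple

/-- directions do not change along a geodesic -/
lemma lam_between {m q q' : E2} (hm : m ∈ B) (hq : q ∈ B) (hq' : q' ∈ B) (hmq : m ≠ q)
    (hmq' : m ≠ q') (hcol : ρ m q' = ρ m q + ρ q q') : lam ρ q m = lam ρ q' m := by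
  refine ContinuousLinearMap.ext fun w => ?_
  let f : E2 → ℝ := fun v => unc ρ (v, q) - unc ρ (v, q')
  have h1 : HasFDerivAt (fun v : E2 => (v, q)) (ContinuousLinearMap.inl ℝ E2 E2) m :=
    (hasFDerivAt_id m).prodMk (hasFDerivAt_const q m)
  have h1' : HasFDerivAt (fun v : E2 => (v, q')) (ContinuousLinearMap.inl ℝ E2 E2) m :=
    (hasFDerivAt_id m).prodMk (hasFDerivAt_const q' m)
  have h2 := HasFDerivAt.comp m (g := unc ρ) (f := fun v : E2 => (v, q))
    (h.unc_diff hm hq hmq).hasFDerivAt h1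
  have h2' := HasFDerivAt.comp m (g := unc ρ) (f := fun v : E2 => (v, q'))
    (h.unc_diff hm hq' hmq').hasFDerivAt h1'
  have h3 := h2.sub h2'
  have hmin : IsLocalMin f m := by
    refine Eventually.of_forall (fun v => ?_)
    have := h.tri v q q'
    change ρ m q - ρ m q' ≤ ρ v q - ρ v q'
    linarith
  have h4 : fderiv ℝ f m = _ := h3.fderiv
  rw [hmin.fderiv_eq_zero] at h4
  have h5 := congrArg (fun L => L w) h4
  have h6 : (0 : ℝ) = fderiv ℝ (unc ρ) (m, q) (w, 0) - fderiv ℝ (unc ρ) (m, q') (w, 0) := h5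
  rw [h.fd_unc_swap hm hq hmq, h.fd_unc_swap hm hq' hmq'] at h6
  rw [lam_apply, lam_apply]
  linarith

lemma rho_small {ε : ℝ} (hε : 0 < ε) : ∃ s₂ > 0, ball z s₂ ⊆ B ∧
    ∀ x ∈ ball z s₂, ∀ y ∈ ball z s₂, ρ x y < ε := by
  have hz : z ∈ B := h.ball_sub (mem_ball_self h.s_pos)
  have h1 : ContinuousAt (sg ρ) (z, z) := (h.sg_cd hz hz).continuousAt
  have h2 : ∀ᶠ P in 𝓝 (z, z), sg ρ P < ε ^ 2 / 2 := by
    refine h1.eventually (gt_mem_nhds ?_)
    have : sg ρ (z, z) = 0 := by simp [sg, h.self]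
    rw [this]; positivity
  obtain ⟨s₂, hs₂, hs⟩ := Metric.mem_nhds_iff.1 (inter_mem h2 (h.nhds2 hz hz))
  refine ⟨s₂, hs₂, ?_, ?_⟩
  · intro x hx
    have : (x, x) ∈ ball (z, z) s₂ := by
      rw [← ball_prod_same]; exact ⟨hx, hx⟩
    exact (hs this).2.1
  · intro x hx y hy
    have hxy : (x, y) ∈ ball (z, z) s₂ := by
      rw [← ball_prod_same]; exact ⟨hx, hy⟩
    have h3 : sg ρ (x, y) < ε ^ 2 / 2 := (hs hxy).1
    unfold sg at h3
    have h4 : ρ x y ^ 2 < ε ^ 2 := by linarith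
    exact lt_of_pow_lt_pow_left₀ 2 hε.le h4

end NiceLocal

theorem p1 : P1 := by
  intro ρ z s B h ξ η hF
  obtain ⟨s₁, hs₁, hsB, -, hinj⟩ := h.exists_inj
  have hz : z ∈ B := h.ball_sub (mem_ball_self h.s_pos)
  obtain ⟨ε, hε, hnear⟩ := h.near z hz (min s₁ s) (lt_min hs₁ h.s_pos)
  obtain ⟨s₂, hs₂, hs2B, hsmall⟩ := h.rho_small (ε := ε / 4) (by positivity)
  refine ⟨min s₂ (min s₁ s), lt_min hs₂ (lt_min hs₁ h.s_pos),
    (ball_subset_ball (min_le_left _ _)).trans hs2B, ?_⟩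
  have key : ∀ m ∈ ball z (min s₂ (min s₁ s)), ∀ p ∈ ball z (min s₂ (min s₁ s)),
      ∀ p' ∈ ball z (min s₂ (min s₁ s)), p ≠ m → p' ≠ m → lam ρ p m = lam ρ p' m →
      ρ p m ≤ ρ p' m → Dd ρ ξ p m = Dd ρ ξ p' m := by
    intro m hm p hp p' hp' hpm hpm' hlam hle
    have b1 : ball z (min s₂ (min s₁ s)) ⊆ ball z s₂ := ball_subset_ball (min_le_left _ _)
    have b2 : ball z (min s₂ (min s₁ s)) ⊆ ball z s₁ :=
      ball_subset_ball ((min_le_right _ _).trans (min_le_left _ _))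
    have b3 : ball z (min s₂ (min s₁ s)) ⊆ ball z s :=
      ball_subset_ball ((min_le_right _ _).trans (min_le_right _ _))
    have hmB := hsB (b2 hm)
    have hpB := hsB (b2 hp)
    have hpB' := hsB (b2 hp')
    have r0 : 0 < ρ p m := h.pos p hpB m hmB hpm
    have r0' : 0 < ρ p' m := h.pos p' hpB' m hmB hpm'
    have zz : z ∈ ball z s₂ := mem_ball_self hs₂
    have k1 : ρ z m < ε / 4 := hsmall z zz m (b1 hm)
    have k2 : ρ p m < ε / 4 := hsmall p (b1 hp) m (b1 hm)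
    have k2' : ρ p' m < ε / 4 := hsmall p' (b1 hp') m (b1 hm)
    obtain ⟨q, hqB, hq1, hq2⟩ := h.refl p (b3 hp) m (b3 hm)
    obtain ⟨q', hqB', hq1', hq2'⟩ := h.refl p' (b3 hp') m (b3 hm)
    have in1 : ∀ v ∈ B, ρ m v < ε / 2 → v ∈ ball z s₁ ∧ v ∈ ball z s := by
      intro v hv hv2
      have := h.tri z m v
      have h3 := hnear v hv (by linarith)
      constructor
      · rw [mem_ball, dist_eq_norm]; exact h3.trans_le (min_le_left _ _)
      · rw [mem_ball, dist_eq_norm]; exact h3.trans_le (min_le_right _ _)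
    have hq3 := in1 q hqB (by linarith)
    have hq3' := in1 q' hqB' (by linarith)
    have hmq : m ≠ q := by
      rintro rfl
      rw [h.self] at hq1; linarith
    have hmq' : m ≠ q' := by
      rintro rfl
      rw [h.self] at hq1'; linarith
    have hpq : p ≠ q := by
      rintro rfl
      rw [h.self] at hq2; linarith
    have hpq' : p' ≠ q' := by
      rintro rfl
      rw [h.self] at hq2'; linarith
    have l1 : lam ρ p m + lam ρ q m = 0 :=
      h.lam_col hpB hmB hqB hpm hmq hpq (by rw [hq2, hq1]; ring)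
    have l1' : lam ρ p' m + lam ρ q' m = 0 :=
      h.lam_col hpB' hmB hqB' hpm' hmq' hpq' (by rw [hq2', hq1']; ring)
    set t := ρ p m / ρ p' m with ht
    have ht0 : 0 < t := by positivity
    have ht1 : t ≤ 1 := (div_le_one r0').2 hle
    obtain ⟨q'', hqB'', hs1, hs2⟩ := h.seg m (b3 hm) q' hq3'.2 t ⟨ht0.le, ht1⟩
    have e1 : ρ m q'' = ρ p m := by
      rw [hs1, hq1', ht]; field_simp
    have hmq'' : m ≠ q'' := by
      rintro rfl
      rw [h.self] at e1; linarith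
    have l2 : lam ρ q'' m = lam ρ q' m :=
      h.lam_between hmB hqB'' hqB' hmq'' hmq' (by rw [hs1, hs2]; ring)
    have l3 : lam ρ q'' m = lam ρ q m := by
      rw [l2, eq_neg_of_add_eq_zero_right l1', eq_neg_of_add_eq_zero_right l1, hlam]
    have hq3'' := in1 q'' hqB'' (by linarith)
    have e2 : q'' = q := by
      refine hinj m (b2 hm) q'' hq3''.1 q hq3.1 ?_
      refine ContinuousLinearMap.ext fun w => ?_
      rw [h.Psi_eq hqB'' hmB hmq''.symm, h.Psi_eq hqB hmB hmq.symm, l3, h.symm q'' m, e1,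
        h.symm q m, hq1]
    subst e2
    have e3 : ρ p' q'' = ρ p' m + ρ m q'' := by
      refine le_antisymm (h.tri _ _ _) ?_
      have a1 := h.tri p' q'' q'
      rw [hq2', hs2] at a1
      rw [hs1]
      nlinarith
    have hpq'' : p' ≠ q'' := by
      rintro rfl
      rw [h.self, e1] at e3
      linarith
    have d1 : Dd ρ ξ p m + Dd ρ ξ q'' m = 0 :=
      h.Dd_col hpB hmB hqB'' hpm hmq'' hpq (by rw [hq2, e1]; ring) hF
    have d2 : Dd ρ ξ p' m + Dd ρ ξ q'' m = 0 :=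
      h.Dd_col hpB' hmB hqB'' hpm' hmq'' hpq'' e3 hF
    rw [eq_neg_of_add_eq_zero_left d1, eq_neg_of_add_eq_zero_left d2]
  intro m hm p hp p' hp' hpm hpm' hlam
  rcases le_total (ρ p m) (ρ p' m) with hle | hle
  · exact key m hm p hp p' hp' hpm hpm' hlam hle
  · exact (key m hm p' hp' p hp hpm' hpm hlam.symm hle).symm

end Pool.Agent.Helper4Nets
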