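import Pool.Agent.Helper4_Nets.M4.Coll

/-!
Module M4 of the blueprint: the remaining steps of local rigidity, as separate statements
`P1` to `P7`, and the assembly.
-/

set_option autoImplicit false

open Set Filter Topology Metric
open scoped ContDiff

namespace Pool.Agent.Helper4Nets

/-- STEPS 2, 3: the derivative `Dd` depends only on the direction. -/
def P1 : Prop :=
  ∀ (ρ : E2 → E2 → ℝ) (z : E2) (s : ℝ) (B : Set E2), NiceLocal ρ z s B →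
    ∀ ξ η : E2 → E2, Flds ρ B ξ η →
      ∃ s₂ > 0, ball z s₂ ⊆ B ∧ ∀ m ∈ ball z s₂, ∀ p ∈ ball z s₂, ∀ p' ∈ ball z s₂,
        p ≠ m → p' ≠ m → lam ρ p m = lam ρ p' m → Dd ρ ξ p m = Dd ρ ξ p' m

/-- STEP 4: if the rows `(2 Dd, - lam)` have no common kernel, the fields are `C²` at `m`. -/
def P2 : Prop :=
  ∀ (ρ : E2 → E2 → ℝ) (z : E2) (s : ℝ) (B : Set E2), NiceLocal ρ z s B →
    ∀ ξ η : E2 → E2, Flds ρ B ξ η → ∀ m ∈ B, ∀ W : Set E2, W ⊆ B →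
      (∀ ζ μ : E2, (∀ p ∈ W, p ≠ m → 2 * Dd ρ ξ p m ζ = lam ρ p m μ) → ζ = 0 ∧ μ = 0) →
      ContDiffAt ℝ 2 ξ m ∧ ContDiffAt ℝ 2 η m

/-- the function `h - 2 a σ`, where `h = Dσ(ξ,ξ)` -/
noncomputable def hf (ρ : E2 → E2 → ℝ) (ξ : E2 → E2) (a : ℝ) (P : E2 × E2) : ℝ :=
  fderiv ℝ (sg ρ) P (ξ P.1, ξ P.2) - 2 * a * sg ρ P

/-- STEP 5: where the fields are `C²`, the function `h` is `2 a σ` up to second order. -/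
def P3 : Prop :=
  ∀ (ρ : E2 → E2 → ℝ) (z : E2) (s : ℝ) (B : Set E2), NiceLocal ρ z s B →
    ∀ ξ η : E2 → E2, Flds ρ B ξ η → ∀ m ∈ B, ContDiffAt ℝ 2 ξ m → ContDiffAt ℝ 2 η m →
      ∃ a : ℝ, ContDiffAt ℝ 2 (hf ρ ξ a) (m, m) ∧ hf ρ ξ a (m, m) = 0 ∧
        fderiv ℝ (hf ρ ξ a) (m, m) = 0 ∧ D2 (hf ρ ξ a) (m, m) = 0

/-- STEP 6: the limit along rays. -/
def P4 : Prop :=
  ∀ (ρ : E2 → E2 → ℝ) (z : E2) (s : ℝ) (B : Set E2), NiceLocal ρ z s B →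
    ∀ ξ η : E2 → E2, Flds ρ B ξ η → ∀ s₂ : ℝ, ball z s₂ ⊆ B → ∀ m ∈ ball z s₂,
      (∀ p ∈ ball z s₂, ∀ p' ∈ ball z s₂,
        p ≠ m → p' ≠ m → lam ρ p m = lam ρ p' m → Dd ρ ξ p m = Dd ρ ξ p' m) →
      ContDiffAt ℝ 2 ξ m → ∀ a : ℝ, ContDiffAt ℝ 2 (hf ρ ξ a) (m, m) →
      hf ρ ξ a (m, m) = 0 → fderiv ℝ (hf ρ ξ a) (m, m) = 0 → D2 (hf ρ ξ a) (m, m) = 0 →
      ∀ p ∈ ball z s₂, p ≠ m → ∀ w,
        Dd ρ ξ p m w + lam ρ p m (fderiv ℝ ξ m w) = a * lam ρ p m w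

/-- STEP 7: a common kernel forces `Dd` to be linear in the direction. -/
def P5 : Prop :=
  ∀ (ρ : E2 → E2 → ℝ) (z : E2) (s : ℝ) (B : Set E2), NiceLocal ρ z s B →
    ∀ ξ η : E2 → E2, Flds ρ B ξ η → ∃ s₄ > 0, ∀ s₂ ≤ s₄, ∀ m ∈ ball z s₂,
      (∃ ζ μ : E2, ¬ (ζ = 0 ∧ μ = 0) ∧
        ∀ p ∈ ball z s₂, p ≠ m → 2 * Dd ρ ξ p m ζ = lam ρ p m μ) →
      ∃ A : E2 →L[ℝ] E2, ∀ p ∈ ball z s₂, p ≠ m → ∀ v, Dd ρ ξ p m v = lam ρ p m (A v)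

/-- STEP 8: linearity in the direction forces the fields to be `C²`. -/
def P6 : Prop :=
  ∀ (ρ : E2 → E2 → ℝ) (z : E2) (s : ℝ) (B : Set E2), NiceLocal ρ z s B →
    ∀ ξ η : E2 → E2, Flds ρ B ξ η → ∀ s₂ > 0, ball z s₂ ⊆ B →
      (∀ m ∈ ball z s₂, ∃ A : E2 →L[ℝ] E2, ∀ p ∈ ball z s₂, p ≠ m →
        ∀ v, Dd ρ ξ p m v = lam ρ p m (A v)) →
      ∃ s₃ > 0, s₃ ≤ s₂ ∧ ∀ m ∈ ball z s₃, ContDiffAt ℝ 2 ξ m ∧ ContDiffAt ℝ 2 η m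

/-- STEP 9: conclusion. -/
def P7 : Prop :=
  ∀ (ρ : E2 → E2 → ℝ) (z : E2) (s : ℝ) (B : Set E2), NiceLocal ρ z s B →
    ∀ ξ η : E2 → E2, Flds ρ B ξ η → ∀ s₂ > 0, ball z s₂ ⊆ B →
      (∀ m ∈ ball z s₂, ContDiffAt ℝ 2 ξ m ∧ ∃ a : ℝ, ∀ p ∈ ball z s₂, p ≠ m → ∀ w,
        Dd ρ ξ p m w + lam ρ p m (fderiv ℝ ξ m w) = a * lam ρ p m w) →
      ∃ s' > 0, ∃ a : ℝ, ∀ x ∈ ball z s', ∀ y ∈ ball z s', x ≠ y →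
        fderiv ℝ (unc ρ) (x, y) (ξ x, ξ y) = a * ρ x y

theorem localRigidity_of (h1 : P1) (h2 : P2) (h3 : P3) (h4 : P4) (h5 : P5) (h6 : P6) (h7 : P7) :
    LocalRigidity := by
  intro ρ z s B h ξ η hb he
  have hF : Flds ρ B ξ η := ⟨hb, he⟩
  obtain ⟨s₂, hs₂, hsB, hdir⟩ := h1 ρ z s B h ξ η hF
  obtain ⟨s₄, hs₄, hlin⟩ := h5 ρ z s B h ξ η hF
  set s₅ := min s₂ s₄ with hs₅
  have h52 : s₅ ≤ s₂ := min_le_left _ _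
  have h54 : s₅ ≤ s₄ := min_le_right _ _
  have hs₅0 : 0 < s₅ := lt_min hs₂ hs₄
  have hb5 : ball z s₅ ⊆ ball z s₂ := ball_subset_ball h52
  have hA : ∀ m ∈ ball z s₅, ∃ A : E2 →L[ℝ] E2, ∀ p ∈ ball z s₅, p ≠ m →
      ∀ v, Dd ρ ξ p m v = lam ρ p m (A v) := by
    intro m hm
    by_cases hker : ∃ ζ μ : E2, ¬ (ζ = 0 ∧ μ = 0) ∧
        ∀ p ∈ ball z s₅, p ≠ m → 2 * Dd ρ ξ p m ζ = lam ρ p m μ
    · exact hlin s₅ h54 m hm hker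
    · have hmB : m ∈ B := hsB (hb5 hm)
      obtain ⟨c1, c2⟩ := h2 ρ z s B h ξ η hF m hmB (ball z s₅) (hb5.trans hsB) (by
        intro ζ μ hζ
        by_contra hcon
        exact hker ⟨ζ, μ, hcon, hζ⟩)
      obtain ⟨a, a1, a2, a3, a4⟩ := h3 ρ z s B h ξ η hF m hmB c1 c2
      have hfin := h4 ρ z s B h ξ η hF s₅ (hb5.trans hsB) m hm
        (fun p hp p' hp' => hdir m (hb5 hm) p (hb5 hp) p' (hb5 hp')) c1 a a1 a2 a3 a4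
      refine ⟨a • ContinuousLinearMap.id ℝ E2 - fderiv ℝ ξ m, fun p hp hne v => ?_⟩
      have := hfin p hp hne v
      change _ = lam ρ p m (a • v - fderiv ℝ ξ m v)
      rw [map_sub, map_smul, smul_eq_mul]
      linarith
  obtain ⟨s₃, hs₃, h35, hcd⟩ := h6 ρ z s B h ξ η hF s₅ hs₅0 (hb5.trans hsB) hA
  have hb3 : ball z s₃ ⊆ ball z s₂ := (ball_subset_ball h35).trans hb5
  refine h7 ρ z s B h ξ η hF s₃ hs₃ (hb3.trans hsB) (fun m hm => ?_)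
  obtain ⟨c1, c2⟩ := hcd m hm
  obtain ⟨a, a1, a2, a3, a4⟩ := h3 ρ z s B h ξ η hF m (hsB (hb3 hm)) c1 c2
  exact ⟨c1, a, h4 ρ z s B h ξ η hF s₃ (hb3.trans hsB) m hm
        (fun p hp p' hp' => hdir m (hb3 hm) p (hb3 hp) p' (hb3 hp')) c1 a a1 a2 a3 a4⟩

end Pool.Agent.Helper4Nets
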